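import Pool.Agent.H65.AF.Defs

/-!
helper75 (pigeonhole axioms): refutations in a Frege system which may use, besides the rules of the system, all substitution
instances of the pigeonhole principle with many more pigeons than holes.
-/

set_option autoImplicit false

namespace ACpFrege

/-- The pigeonhole principle for `m` pigeons and `n` holes with the formula `ψ i j` for the statement that pigeon `i` is in hole `j`: some pigeon
is in no hole, or two pigeons are in the same hole. -/
def phpFm {p m n : ℕ} (ψ : Fin m → Fin n → Fm p) : Fm p :=
  cnL true (((List.finRange m).map fun i => .neg (cnL true ((List.finRange n).map (ψ i)))) ++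
    (List.finRange m).flatMap fun i => ((List.finRange m).filter fun i' => i < i').flatMap fun i' =>
      (List.finRange n).map fun j => cnL false [ψ i j, ψ i' j])

/-- `A` is an instance of the pigeonhole principle with `m ≥ 1` pigeons and `n` holes, `(1 + 1/P) n ≤ m`. -/
def IsPhp {p : ℕ} (P : ℕ) (A : Fm p) : Prop :=
  ∃ (m n : ℕ) (ψ : Fin m → Fin n → Fm p), 1 ≤ m ∧ (P + 1) * n ≤ P * m ∧ A = phpFm ψ

/-- `π` is a refutation of the CNF `F` of depth at most `d` in the system `S` with the pigeonhole axioms `IsPhp P`. -/
def RefutesP {p : ℕ} (S : List (Rule p)) (d P : ℕ) (F : CNF) (π : List (Fm p)) : Prop :=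
  (∀ A ∈ π, A.depth ≤ d) ∧ (∀ (i : ℕ) (h : i < π.length), Step S F (π.take i) π[i] ∨ IsPhp P π[i]) ∧ cnL true [] ∈ π

end ACpFrege
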