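import Mathlib

/-!
helper75 (pigeonhole axioms): the dimension count. If `T i j` (`i < m`, `j < n`) map `U0` into `U1`, if for every `i` the sum of the
`T i j` over `j` is the identity on `U0`, and for every `j` the maps `T i j` are orthogonal projections on `U0`, then
`m * dim U0 ≤ n * dim U1`.
-/

set_option autoImplicit false
open Finset

namespace ACpFrege

variable {K : Type} [Field K] {E : Type} [AddCommGroup E] [Module K E] [FiniteDimensional K E]

theorem PA_dim1 {n : ℕ} (U : Submodule K E) (T : Fin n → E →ₗ[K] E) (h : ∀ w ∈ U, ∑ j, T j w = w) :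
    Module.finrank K U ≤ ∑ j, Module.finrank K (U.map (T j)) := by
  rw [← Module.finrank_pi_fintype K]
  refine LinearMap.finrank_le_finrank_of_injective
    (f := LinearMap.pi fun j => (T j).submoduleMap U) ?_
  rw [← LinearMap.ker_eq_bot, LinearMap.ker_eq_bot']
  intro w hw
  have h1 : ∀ j, T j (w : E) = 0 := by
    intro j
    have h2 := congrFun hw j
    have h3 := congrArg Subtype.val h2
    exact h3
  apply Subtype.ext
  rw [← h w w.2]
  exact Finset.sum_eq_zero fun j _ => h1 j

theorem PA_dim2 {m : ℕ} (U U1 : Submodule K E) (T : Fin m → E →ₗ[K] E) (h1 : ∀ i, ∀ w ∈ U, T i w ∈ U1)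
    (h2 : ∀ i, ∀ w ∈ U, T i (T i w) = T i w) (h3 : ∀ i i', i ≠ i' → ∀ w ∈ U, T i (T i' w) = 0) :
    ∑ i, Module.finrank K (U.map (T i)) ≤ Module.finrank K U1 := by
  rw [← Module.finrank_pi_fintype K]
  have hle : ∀ i, U.map (T i) ≤ U1 := by
    intro i x hx
    obtain ⟨w, hw, rfl⟩ := Submodule.mem_map.1 hx
    exact h1 i w hw
  refine LinearMap.finrank_le_finrank_of_injective
    (f := ∑ i, (Submodule.inclusion (hle i)).comp (LinearMap.proj (R := K) (φ := fun i => U.map (T i)) i)) ?_
  rw [← LinearMap.ker_eq_bot, LinearMap.ker_eq_bot']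
  intro u hu
  have hu' : ∑ i, ((u i : U.map (T i)) : E) = 0 := by
    have h4 := congrArg Subtype.val hu
    rw [LinearMap.sum_apply] at h4
    simpa using h4
  funext i0
  apply Subtype.ext
  have h5 : T i0 (∑ i, ((u i : U.map (T i)) : E)) = (u i0 : E) := by
    rw [map_sum, Finset.sum_eq_single i0]
    · obtain ⟨w, hw, he⟩ := Submodule.mem_map.1 (u i0).2
      rw [← he]
      exact h2 i0 w hw
    · intro i _ hi
      obtain ⟨w, hw, he⟩ := Submodule.mem_map.1 (u i).2
      rw [← he]
      exact h3 i0 i (Ne.symm hi) w hw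
    · intro h
      exact absurd (Finset.mem_univ _) h
  rw [hu', map_zero] at h5
  exact h5.symm

theorem PA_dim {m n : ℕ} (U U1 : Submodule K E) (T : Fin m → Fin n → E →ₗ[K] E) (h0 : ∀ i, ∀ w ∈ U, ∑ j, T i j w = w)
    (h1 : ∀ i j, ∀ w ∈ U, T i j w ∈ U1) (h2 : ∀ i j, ∀ w ∈ U, T i j (T i j w) = T i j w)
    (h3 : ∀ i i', i ≠ i' → ∀ j, ∀ w ∈ U, T i j (T i' j w) = 0) :
    m * Module.finrank K U ≤ n * Module.finrank K U1 := by
  calc m * Module.finrank K U = ∑ _i : Fin m, Module.finrank K U := by
        rw [Finset.sum_const, Finset.card_univ, Fintype.card_fin, smul_eq_mul]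
    _ ≤ ∑ i : Fin m, ∑ j : Fin n, Module.finrank K (U.map (T i j)) :=
        Finset.sum_le_sum fun i _ => PA_dim1 U (T i) (h0 i)
    _ = ∑ j : Fin n, ∑ i : Fin m, Module.finrank K (U.map (T i j)) := Finset.sum_comm
    _ ≤ ∑ _j : Fin n, Module.finrank K U1 :=
        Finset.sum_le_sum fun j _ => PA_dim2 U U1 (fun i => T i j) (fun i => h1 i j) (fun i => h2 i j)
          (fun i i' hi => h3 i i' hi j)
    _ = n * Module.finrank K U1 := by
        rw [Finset.sum_const, Finset.card_univ, Fintype.card_fin, smul_eq_mul]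

/-- Monotonicity of the codimension of `V`. -/
theorem PA_codim (V A B : Submodule K E) (h : A ≤ B) :
    Module.finrank K A + Module.finrank K ↥(V ⊓ B) ≤ Module.finrank K B + Module.finrank K ↥(V ⊓ A) := by
  have h1 := Submodule.finrank_sup_add_finrank_inf_eq (V ⊓ B) A
  have h2 : Module.finrank K ↥(V ⊓ B ⊔ A) ≤ Module.finrank K B := Submodule.finrank_mono (sup_le inf_le_right h)
  have h3 : V ⊓ B ⊓ A = V ⊓ A := by
    rw [inf_assoc, inf_eq_right.2 h]
  rw [h3] at h1
  omega

/-- The kernel of a map in a subspace. -/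
theorem PA_ker (U : Submodule K E) (T : E →ₗ[K] E) :
    Module.finrank K U ≤ Module.finrank K ↥(U ⊓ LinearMap.ker T) + Module.finrank K (U.map T) := by
  have h1 := LinearMap.finrank_range_add_finrank_ker (T.submoduleMap U)
  have h2 : LinearMap.range (T.submoduleMap U) = ⊤ := LinearMap.range_eq_top.2 (T.submoduleMap_surjective U)
  rw [h2, finrank_top] at h1
  have h3 : Module.finrank K (LinearMap.ker (T.submoduleMap U)) ≤ Module.finrank K ↥(U ⊓ LinearMap.ker T) := by
    refine LinearMap.finrank_le_finrank_of_injective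
      (f := ((U.subtype).comp (LinearMap.ker (T.submoduleMap U)).subtype).codRestrict (U ⊓ LinearMap.ker T) ?_) ?_
    · intro x
      refine ⟨x.1.2, ?_⟩
      have h4 := x.2
      rw [LinearMap.mem_ker] at h4
      have h5 := congrArg Subtype.val h4
      exact h5
    · intro x y hxy
      have h4 := congrArg Subtype.val hxy
      exact Subtype.ext (Subtype.ext h4)
  omega

end ACpFrege
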