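import Pool.Agent.H75.PA.Rank

/-!
helper75 (pigeonhole axioms): the list of gates of a refutation with pigeonhole axioms.
-/

set_option autoImplicit false
open Finset

namespace ACpFrege

variable {p : ℕ}

theorem PA_size_cnL (k : Bool) (l : List (Fm p)) : (cnL k l).size = 1 + (l.map Fm.size).sum := by
  rw [← subs_length, subs_cnL, List.length_cons, List.length_flatten, List.map_map, add_comm]
  congr 2
  refine List.map_congr_left fun A _ => ?_
  exact subs_length A

theorem PA_size_pos (A : Fm p) : 1 ≤ A.size := by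
  rw [← subs_length]
  exact List.length_pos_of_mem (subs_self A)

theorem PA_size_php {m r : ℕ} (ψ : Fin m → Fin r → Fm p) : m * (r + 1) ≤ (phpFm ψ).size := by
  have h1 : ∀ i, r + 1 ≤ (Fm.neg (cnL true (phRow ψ i))).size := by
    intro i
    show r + 1 ≤ (cnL true (phRow ψ i)).size + 1
    rw [PA_size_cnL]
    have h2 := List.length_le_sum_of_one_le ((phRow ψ i).map Fm.size) (by
      intro x hx
      rw [List.mem_map] at hx
      obtain ⟨A, _, rfl⟩ := hx
      exact PA_size_pos A)
    rw [List.length_map, phRow_length] at h2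
    omega
  have h3 : m * (r + 1) ≤ (((List.finRange m).map fun i => Fm.neg (cnL true (phRow ψ i))).map Fm.size).sum := by
    rw [List.map_map]
    have h4 := List.card_nsmul_le_sum ((List.finRange m).map (Fm.size ∘ fun i => Fm.neg (cnL true (phRow ψ i)))) (r + 1) (by
      intro x hx
      rw [List.mem_map] at hx
      obtain ⟨i, _, rfl⟩ := hx
      exact h1 i)
    rw [List.length_map, List.length_finRange, smul_eq_mul] at h4
    exact h4
  rw [phpFm_eq, PA_size_cnL]
  unfold phMem
  rw [List.map_append, List.sum_append]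
  omega

private theorem PAG_sysC {S : List (Rule p)} {R : Rule p} (hR : R ∈ S) :
    R.mvs.length + 3 * R.sqs.length ≤ sysC S := by
  unfold sysC
  have h1 : R.mvs.length + 3 * R.sqs.length ∈ S.map fun R : Rule p => R.mvs.length + 3 * R.sqs.length :=
    List.mem_map.2 ⟨R, hR, rfl⟩
  have h2 := List.single_le_sum (l := S.map fun R : Rule p => R.mvs.length + 3 * R.sqs.length) (fun x _ => Nat.zero_le x) _ h1
  omega

theorem PA_sysC_pos (S : List (Rule p)) : 1 ≤ sysC S := by
  unfold sysC
  omega

/-- The data of a line. -/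
def PALine (S : List (Rule p)) (P : ℕ) (F : CNF) (prev : List (Fm p)) (A : Fm p) (Λ : List (Fm p)) : Prop :=
  (∃ C ∈ F, A = clauseFm C) ∨
    (∃ R ∈ S, ∃ (u : ℕ → Fm p) (G : ℕ → List (Fm p)), R.concl.inst u G = [A] ∧
      (∀ Q ∈ R.prem, ∀ B ∈ Q.inst u G, B ∈ prev) ∧ ∀ j ∈ R.sqs, ∀ k, cnL k (G j) ∈ Λ) ∨
    ∃ (m r : ℕ) (ψ : Fin m → Fin r → Fm p), 1 ≤ m ∧ (P + 1) * r ≤ P * m ∧ A = phpFm ψ ∧
      ∀ i j, j ≤ r → cnL true ((phRow ψ i).take j) ∈ Λ

theorem PALine_mono {S : List (Rule p)} {P : ℕ} {F : CNF} {prev : List (Fm p)} {A : Fm p} {Λ Λ' : List (Fm p)}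
    (h : PALine S P F prev A Λ) (hΛ : ∀ B ∈ Λ, B ∈ Λ') : PALine S P F prev A Λ' := by
  rcases h with h | ⟨R, hR, u, G, h1, h2, h3⟩ | ⟨m, r, ψ, h1, h2, h3, h4⟩
  · exact Or.inl h
  · exact Or.inr (Or.inl ⟨R, hR, u, G, h1, h2, fun j hj k => hΛ _ (h3 j hj k)⟩)
  · exact Or.inr (Or.inr ⟨m, r, ψ, h1, h2, h3, fun i j hj => hΛ _ (h4 i j hj)⟩)

/-- The auxiliary gates and all subformulas of a refutation. -/
theorem PA_gates (S : List (Rule p)) (d P : ℕ) (F : CNF) (π : List (Fm p)) (hπ : RefutesP S d P F π) :
    ∃ Λ : List (Fm p), Λ.length ≤ 4 * sysC S * psize π ∧ (∀ A ∈ π, ∀ B ∈ A.subs, B ∈ Λ) ∧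
      (∀ k l, cnL k l ∈ Λ → ∀ A ∈ l, A.dep 0 ≤ d) ∧
      ∀ (i : ℕ) (h : i < π.length), PALine S P F (π.take i) π[i] Λ := by
  obtain ⟨hd, hst, _⟩ := hπ
  have key : ∀ i : Fin π.length, ∃ aux : List (Fm p), aux.length ≤ 2 * sysC S + (π[i]).size ∧
      (∀ k l, cnL k l ∈ aux → ∀ A ∈ l, A.dep 0 ≤ d) ∧ PALine S P F (π.take i) π[i] aux := by
    intro i
    have hi : π[i] ∈ π := List.getElem_mem i.2
    rcases hst i i.2 with (h | ⟨R, hR, u, G, h1, h2⟩) | ⟨m, r, ψ, h1, h2, h3⟩
    · exact ⟨[], Nat.zero_le _, fun k l h' => absurd h' List.not_mem_nil, Or.inl h⟩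
    · refine ⟨R.sqs.flatMap fun j => [cnL true (G j), cnL false (G j)], ?_, ?_, Or.inr (Or.inl ⟨R, hR, u, G, h1, h2, ?_⟩)⟩
      · have h3 := PAG_sysC hR
        rw [List.length_flatMap]
        simp only [List.length_cons, List.length_nil, List.map_const', List.sum_replicate, smul_eq_mul]
        omega
      · intro k l h' A hA
        rw [List.mem_flatMap] at h'
        obtain ⟨j, hj, h'⟩ := h'
        have hl : l = G j := by
          simp only [List.mem_cons, List.not_mem_nil, or_false] at h'
          rcases h' with h' | h'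
          · exact (cnL_inj h').2
          · exact (cnL_inj h').2
        rw [hl] at hA
        unfold Rule.sqs at hj
        rw [List.mem_append] at hj
        rcases hj with hj | hj
        · obtain ⟨B, hB, hAB⟩ := sqs_sub u G R.concl hj hA
          rw [h1, List.mem_singleton] at hB
          rw [hB] at hAB
          exact (dep_subs hAB).trans (hd _ hi)
        · rw [List.mem_flatten] at hj
          obtain ⟨L, hL, hj⟩ := hj
          rw [List.mem_map] at hL
          obtain ⟨Q, hQ, rfl⟩ := hL
          obtain ⟨B, hB, hAB⟩ := sqs_sub u G Q hj hA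
          exact (dep_subs hAB).trans (hd _ (List.mem_of_mem_take (h2 Q hQ B hB)))
      · intro j hj k
        rw [List.mem_flatMap]
        refine ⟨j, hj, ?_⟩
        cases k <;> simp
    · have h3' : π[i] = phpFm ψ := h3
      refine ⟨(List.finRange m).flatMap fun i => (List.range (r + 1)).map fun j => cnL true ((phRow ψ i).take j), ?_, ?_,
        Or.inr (Or.inr ⟨m, r, ψ, h1, h2, h3', ?_⟩)⟩
      · rw [List.length_flatMap]
        simp only [List.length_map, List.length_range, List.map_const', List.length_finRange, List.sum_replicate, smul_eq_mul]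
        rw [h3']
        have := PA_size_php ψ
        omega
      · intro k l h' A hA
        rw [List.mem_flatMap] at h'
        obtain ⟨a, _, h'⟩ := h'
        rw [List.mem_map] at h'
        obtain ⟨j, _, h'⟩ := h'
        have hl := (cnL_inj h').2
        rw [← hl] at hA
        have h4 : A ∈ (phpFm ψ).subs := subs_trans (phRow_sub ψ a) (subs_mem_cnL (List.mem_of_mem_take hA))
        rw [← h3'] at h4
        exact (dep_subs h4).trans (hd _ hi)
      · intro a j hj
        rw [List.mem_flatMap]
        refine ⟨a, List.mem_finRange a, ?_⟩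
        rw [List.mem_map]
        exact ⟨j, List.mem_range.2 (by omega), rfl⟩
  choose aux ha1 ha2 ha3 using key
  refine ⟨(π.map Fm.subs).flatten ++ (List.ofFn aux).flatten, ?_, ?_, ?_, ?_⟩
  · have hsz : π.length ≤ psize π := by
      unfold psize
      have h1 := List.length_le_sum_of_one_le (π.map Fm.size) (by
        intro i hi
        rw [List.mem_map] at hi
        obtain ⟨A, _, rfl⟩ := hi
        exact PA_size_pos A)
      rw [List.length_map] at h1
      exact h1
    have h1 : ((π.map Fm.subs).flatten).length = psize π := by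
      unfold psize
      rw [List.length_flatten, List.map_map]
      congr 1
      refine List.map_congr_left fun A _ => ?_
      exact subs_length A
    have h2 : ((List.ofFn aux).flatten).length ≤ π.length * (2 * sysC S) + psize π := by
      rw [List.length_flatten, List.map_ofFn, List.sum_ofFn]
      refine (Finset.sum_le_sum fun i _ => ha1 i).trans (le_of_eq ?_)
      rw [Finset.sum_add_distrib, Finset.sum_const, Finset.card_univ, Fintype.card_fin, smul_eq_mul]
      congr 1
      have h6 : (List.ofFn fun i : Fin π.length => (π[i]).size) = π.map Fm.size := by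
        apply List.ext_getElem
        · simp
        · intro a b c
          simp
      unfold psize
      rw [← h6, List.sum_ofFn]
    rw [List.length_append, h1]
    have h3 : π.length * (2 * sysC S) ≤ psize π * (2 * sysC S) := Nat.mul_le_mul_right _ hsz
    have h4 : psize π ≤ psize π * sysC S := Nat.le_mul_of_pos_right _ (PA_sysC_pos S)
    have h5 : 4 * sysC S * psize π = psize π * sysC S + psize π * sysC S + psize π * (2 * sysC S) := by ring
    omega
  · intro A hA B hB
    rw [List.mem_append]
    left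
    exact List.mem_flatten.2 ⟨A.subs, List.mem_map.2 ⟨A, hA, rfl⟩, hB⟩
  · intro k l h' A hA
    rw [List.mem_append] at h'
    rcases h' with h' | h'
    · rw [List.mem_flatten] at h'
      obtain ⟨L, hL, h'⟩ := h'
      rw [List.mem_map] at hL
      obtain ⟨B, hB, rfl⟩ := hL
      exact (dep_subs (subs_trans h' (subs_mem_cnL hA))).trans (hd _ hB)
    · rw [List.mem_flatten] at h'
      obtain ⟨L, hL, h'⟩ := h'
      rw [List.mem_ofFn] at hL
      obtain ⟨i, rfl⟩ := hL
      exact ha2 i k l h' A hA
  · intro i h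
    refine PALine_mono (ha3 ⟨i, h⟩) fun B hB => ?_
    rw [List.mem_append]
    right
    exact List.mem_flatten.2 ⟨aux ⟨i, h⟩, List.mem_ofFn.2 ⟨⟨i, h⟩, rfl⟩, hB⟩

end ACpFrege
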