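import Pool.Agent.H75.PA.Out
import Pool.Agent.H65.AF.Main

/-!
helper75: exponential lower bounds for bounded-depth Frege systems with MOD_p connectives and pigeonhole axioms.
-/

set_option autoImplicit false

namespace ACpFrege

/-- The main theorem with pigeonhole axioms. -/
theorem mainP : StatementP :=
  assembleP (fun p _ => outPU p) outBW (partC 3 (le_refl 3)) (partC 4 (by norm_num))

end ACpFrege
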