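import Mathlib

/-!
helper75 (pigeonhole axioms): the numerical part of the final assembly (adapted from H65/AF/Num.lean of helper65 and helper7).
-/

set_option autoImplicit false

namespace ACpFrege

private theorem ev_rpow {a : ℝ} (ha : 0 < a) (B : ℝ) : ∃ n0 : ℕ, ∀ n ≥ n0, B ≤ (n : ℝ) ^ a := by
  have h := ((tendsto_rpow_atTop ha).comp tendsto_natCast_atTop_atTop).eventually_ge_atTop B
  obtain ⟨n0, h0⟩ := Filter.eventually_atTop.mp h
  exact ⟨n0, fun n hn => h0 n hn⟩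

private theorem ev_log (B : ℝ) : ∃ n0 : ℕ, ∀ n ≥ n0, B ≤ Real.log (n : ℝ) := by
  have h := (Real.tendsto_log_atTop.comp tendsto_natCast_atTop_atTop).eventually_ge_atTop B
  obtain ⟨n0, h0⟩ := Filter.eventually_atTop.mp h
  exact ⟨n0, fun n hn => h0 n hn⟩

/-- The exponential inequality. -/
private theorem expo {C : ℕ} (hC : 1 ≤ C) {x y : ℝ} (hx : 1 ≤ x) (hy1 : 1 ≤ y) (hxy : Real.log x ≤ y)
    (hY : Real.log (2 * C) + 2 + Real.log 2 < y * Real.log (3 / 2)) {N M t : ℕ} (hN : (N : ℝ) ≤ 2 ^ y + 1)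
    (hM : (M : ℝ) ≤ x) (ht : y ^ 2 ≤ t) : N * C * M ^ 2 * 2 ^ t < 3 ^ t := by
  have hC' : (1 : ℝ) ≤ C := by exact_mod_cast hC
  have hx0 : 0 < x := by linarith
  have hl32 : 0 < Real.log (3 / 2) := Real.log_pos (by norm_num)
  have hlC : 0 ≤ Real.log (2 * C) := Real.log_nonneg (by linarith)
  have hkey : 2 * (C : ℝ) * x ^ 2 * 2 ^ y < (3 / 2) ^ t := by
    have hpos : 0 < 2 * (C : ℝ) * x ^ 2 * 2 ^ y := by positivity
    rw [← Real.log_lt_log_iff hpos (by positivity)]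
    rw [Real.log_mul (by positivity) (by positivity), Real.log_mul (by positivity) (by positivity), Real.log_pow,
      Real.log_rpow (by norm_num), Real.log_pow]
    have h1 : y ^ 2 * Real.log (3 / 2) ≤ t * Real.log (3 / 2) := mul_le_mul_of_nonneg_right ht hl32.le
    have h2 : y * (Real.log (2 * C) + 2 + Real.log 2) < y * (y * Real.log (3 / 2)) :=
      mul_lt_mul_of_pos_left hY (by linarith)
    have h3 : Real.log (2 * C) ≤ y * Real.log (2 * C) := by nlinarith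
    push_cast
    nlinarith
  have h2y : (1 : ℝ) ≤ 2 ^ y := Real.one_le_rpow (by norm_num) (by linarith)
  have hM2 : (M : ℝ) ^ 2 ≤ x ^ 2 := pow_le_pow_left₀ (Nat.cast_nonneg _) hM 2
  have hN2 : (N : ℝ) ≤ 2 * 2 ^ y := by linarith
  have h5 : (N : ℝ) * C * M ^ 2 ≤ 2 * (C : ℝ) * x ^ 2 * 2 ^ y := by
    calc (N : ℝ) * C * M ^ 2 ≤ (2 * 2 ^ y) * C * x ^ 2 := by gcongr
      _ = _ := by ring
  have h6 : (N : ℝ) * C * M ^ 2 * 2 ^ t < 3 ^ t := by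
    calc (N : ℝ) * C * M ^ 2 * 2 ^ t < (3 / 2) ^ t * 2 ^ t :=
          mul_lt_mul_of_pos_right (h5.trans_lt hkey) (by positivity)
      _ = 3 ^ t := by rw [← mul_pow]; norm_num
  exact_mod_cast h6

/-- The power. -/
private theorem lensP {d p : ℕ} (hp : 1 ≤ p) {x y : ℝ} (hx : 1 ≤ x) (hy : y = x ^ ((1 : ℝ) / (20000 * (d + 1)))) (hy1 : 1 ≤ y)
    (hlp : 4 * (p : ℝ) ^ 2 ≤ y) {t : ℕ} (ht : (t : ℝ) ≤ y ^ 2 + 1) :
    ((p : ℝ) * t) ^ (d + 2) ≤ (x ^ ((1 : ℝ) / 20000)) ^ 5 := by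
  have hx0 : 0 < x := by linarith
  have hp' : (1 : ℝ) ≤ p := by exact_mod_cast hp
  have ht2 : (t : ℝ) ≤ 2 * y ^ 2 := by nlinarith
  have hpow : y ^ (d + 1) = x ^ ((1 : ℝ) / 20000) := by
    rw [hy, ← Real.rpow_natCast, ← Real.rpow_mul hx0.le]
    congr 1
    push_cast
    have : ((d : ℝ) + 1) ≠ 0 := by positivity
    field_simp
  rw [← hpow]
  calc ((p : ℝ) * t) ^ (d + 2) ≤ (p * (2 * y ^ 2)) ^ (d + 2) := by gcongr
    _ = (2 * p) ^ (d + 2) * y ^ (2 * (d + 2)) := by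
      rw [show (p : ℝ) * (2 * y ^ 2) = (2 * p) * y ^ 2 by ring, mul_pow, ← pow_mul]
    _ ≤ (2 * p) ^ (2 * (d + 1)) * y ^ (4 * (d + 1)) := by
      refine mul_le_mul ?_ ?_ (by positivity) (by positivity)
      · exact pow_le_pow_right₀ (by linarith) (by omega)
      · exact pow_le_pow_right₀ hy1 (by omega)
    _ = ((4 * (p : ℝ) ^ 2) ^ (d + 1)) * y ^ (4 * (d + 1)) := by
      rw [pow_mul]
      congr 2
      ring
    _ ≤ y ^ (d + 1) * y ^ (4 * (d + 1)) := by gcongr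
    _ = (y ^ (d + 1)) ^ 5 := by ring

/-- The number of steps. -/
private theorem stepsP {x y : ℝ} (hx : 1 ≤ x) (hy1 : 1 ≤ y) (hxy : Real.log x ≤ y) {P k N M : ℕ} (hP : 1 ≤ P)
    (hk : ((P : ℝ) + 1) * (5 * y) ≤ k) (hN : (N : ℝ) ≤ 2 ^ y + 1) (hM : (M : ℝ) ≤ x) :
    N * M ^ 2 * 2 * P ^ k ≤ (P + 1) ^ k := by
  have hx0 : 0 < x := by linarith
  have hP0 : (0 : ℝ) < P := by exact_mod_cast hP
  have h2y : (1 : ℝ) ≤ 2 ^ y := Real.one_le_rpow (by norm_num) (by linarith)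
  have hM2 : (M : ℝ) ^ 2 ≤ x ^ 2 := pow_le_pow_left₀ (Nat.cast_nonneg _) hM 2
  have hN2 : (N : ℝ) ≤ 2 * 2 ^ y := by linarith
  have hl : 1 / ((P : ℝ) + 1) ≤ Real.log (1 + 1 / P) := by
    have h1 : (0 : ℝ) < 1 + 1 / P := by positivity
    have h2 := Real.one_sub_inv_le_log_of_pos h1
    have h3 : 1 - (1 + 1 / (P : ℝ))⁻¹ = 1 / ((P : ℝ) + 1) := by
      field_simp
      ring
    rw [h3] at h2
    exact h2
  have h1 : 5 * y ≤ k * Real.log (1 + 1 / P) := by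
    have h2 : (k : ℝ) * (1 / ((P : ℝ) + 1)) ≤ k * Real.log (1 + 1 / P) := mul_le_mul_of_nonneg_left hl (Nat.cast_nonneg _)
    refine le_trans ?_ h2
    rw [mul_one_div, le_div_iff₀ (by positivity)]
    linarith
  have h4 : (4 : ℝ) * 2 ^ y * x ^ 2 ≤ (1 + 1 / (P : ℝ)) ^ k := by
    rw [← Real.log_le_log_iff (by positivity) (by positivity)]
    rw [Real.log_mul (by positivity) (by positivity), Real.log_mul (by positivity) (by positivity), Real.log_pow,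
      Real.log_rpow (by norm_num), Real.log_pow]
    have h5 : Real.log 4 ≤ 2 := by
      have : Real.log 4 = 2 * Real.log 2 := by
        rw [show (4 : ℝ) = 2 ^ 2 by norm_num, Real.log_pow]
        norm_num
      rw [this]
      linarith [Real.log_two_lt_d9]
    have h6 : y * Real.log 2 ≤ y := by
      have : Real.log 2 ≤ 1 := by linarith [Real.log_two_lt_d9]
      nlinarith
    push_cast
    linarith
  have h7 : (N : ℝ) * M ^ 2 * 2 ≤ 4 * 2 ^ y * x ^ 2 := by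
    calc (N : ℝ) * M ^ 2 * 2 ≤ (2 * 2 ^ y) * x ^ 2 * 2 := by gcongr
      _ = _ := by ring
  have h8 : (N : ℝ) * M ^ 2 * 2 * P ^ k ≤ (P + 1) ^ k := by
    calc (N : ℝ) * M ^ 2 * 2 * P ^ k ≤ (1 + 1 / (P : ℝ)) ^ k * P ^ k :=
          mul_le_mul_of_nonneg_right (h7.trans h4) (by positivity)
      _ = (P + 1) ^ k := by
        rw [← mul_pow]
        congr 1
        field_simp
  exact_mod_cast h8

private theorem Mbound (n : ℕ) : Real.sqrt n / 10 - 1 ≤ (Nat.sqrt (n / 100) : ℝ) := by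
  have h1 : n / 100 < (Nat.sqrt (n / 100) + 1) * (Nat.sqrt (n / 100) + 1) := Nat.lt_succ_sqrt _
  have h2 : n < 100 * ((Nat.sqrt (n / 100) + 1) * (Nat.sqrt (n / 100) + 1)) := by omega
  have h3 : (n : ℝ) ≤ (10 * ((Nat.sqrt (n / 100) : ℝ) + 1)) ^ 2 := by
    have : (n : ℝ) < ((100 * ((Nat.sqrt (n / 100) + 1) * (Nat.sqrt (n / 100) + 1)) : ℕ) : ℝ) := by exact_mod_cast h2
    push_cast at this
    nlinarith
  have h4 : Real.sqrt n ≤ 10 * ((Nat.sqrt (n / 100) : ℝ) + 1) := by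
    rw [← Real.sqrt_sq (show (0 : ℝ) ≤ 10 * ((Nat.sqrt (n / 100) : ℝ) + 1) by positivity)]
    exact Real.sqrt_le_sqrt h3
  linarith

/-- All parameters. -/
theorem num_exP (p C M₀ : ℕ) (hp : 1 ≤ p) (hC : 1 ≤ C) : ∃ n₀ : ℕ, ∀ n ≥ n₀, ∀ d : ℕ,
    Real.log n ^ (d + 1) ≤ (n : ℝ) ^ ((1 : ℝ) / 20000) →
    M₀ ≤ Nat.sqrt (n / 100) ∧ 1 ≤ Nat.sqrt (n / 100) ∧ ∃ R L t N k : ℕ, R ^ 400 ≤ Nat.sqrt (n / 100) ∧ 2 * L + 8 ≤ R ∧ 1 ≤ t ∧
      (2 * k + C) * (p * t) ^ (d + 2) ≤ L ∧ (2 : ℝ) ^ ((n : ℝ) ^ ((1 : ℝ) / (20000 * (d + 1)))) ≤ N ∧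
      N * C * Nat.sqrt (n / 100) ^ 2 * 2 ^ t < 3 ^ t ∧
      N * Nat.sqrt (n / 100) ^ 2 * 2 * ⌊(n : ℝ) ^ ((1 : ℝ) / 20000)⌋₊ ^ k ≤ (⌊(n : ℝ) ^ ((1 : ℝ) / 20000)⌋₊ + 1) ^ k := by
  have hl32 : 0 < Real.log (3 / 2) := Real.log_pos (by norm_num)
  obtain ⟨n1, hn1⟩ := ev_log (max (max 1 (4 * (p : ℝ) ^ 2)) ((Real.log (2 * C) + 2 + Real.log 2 + 1) / Real.log (3 / 2)))
  obtain ⟨n2, hn2⟩ := ev_rpow (show (0 : ℝ) < 1 / 4000 by norm_num) (4 * ((C : ℝ) + 22) + 24)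
  obtain ⟨n4, hn4⟩ := ev_rpow (show (0 : ℝ) < 1 / 2 by norm_num) (20 * (M₀ + 2))
  refine ⟨max (max n1 n2) (max n4 1), ?_⟩
  intro n hn d hd
  have g1 := hn1 n (by omega)
  have g2 := hn2 n (by omega)
  have g4 := hn4 n (by omega)
  have hn0 : 1 ≤ n := by omega
  have hx1 : (1 : ℝ) ≤ n := by exact_mod_cast hn0
  set x : ℝ := (n : ℝ) with hx
  have hx0 : 0 < x := by linarith
  set y : ℝ := x ^ ((1 : ℝ) / (20000 * (d + 1))) with hy
  have hlog1 : 1 ≤ Real.log x := (le_max_left _ _).trans ((le_max_left _ _).trans g1)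
  have hypow : y ^ (d + 1) = x ^ ((1 : ℝ) / 20000) := by
    rw [hy, ← Real.rpow_natCast, ← Real.rpow_mul hx0.le]
    congr 1
    push_cast
    have : ((d : ℝ) + 1) ≠ 0 := by positivity
    field_simp
  have hxy : Real.log x ≤ y := by
    rw [← hypow] at hd
    exact le_of_pow_le_pow_left₀ (by omega) (by positivity) hd
  have hy1 : 1 ≤ y := hlog1.trans hxy
  have hlp : 4 * (p : ℝ) ^ 2 ≤ y := ((le_max_right _ _).trans ((le_max_left _ _).trans g1)).trans hxy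
  have hY : Real.log (2 * C) + 2 + Real.log 2 < y * Real.log (3 / 2) := by
    have := ((le_max_right _ _).trans g1).trans hxy
    rw [div_le_iff₀ hl32] at this
    linarith
  set M : ℕ := Nat.sqrt (n / 100) with hM
  have hsq : x ^ ((1 : ℝ) / 2) = Real.sqrt x := (Real.sqrt_eq_rpow x).symm
  rw [hsq] at g4
  have hMb := Mbound n
  have hMM : Real.sqrt x / 20 ≤ (M : ℝ) := by
    have h7 : (0 : ℝ) ≤ M₀ := Nat.cast_nonneg _
    have : Real.sqrt x / 10 - 1 ≤ (M : ℝ) := hMb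
    linarith
  have hM2 : (M₀ : ℝ) + 2 ≤ M := by
    refine le_trans ?_ hMM
    linarith
  have hM2' : M₀ + 2 ≤ M := by exact_mod_cast hM2
  have hMx : (M : ℝ) ≤ x := by
    have hs : M * M ≤ n / 100 := Nat.sqrt_le _
    have : M ≤ n := by nlinarith [Nat.div_le_self n 100]
    rw [hx]
    exact_mod_cast this
  set R : ℕ := ⌊(M : ℝ) ^ ((1 : ℝ) / 400)⌋₊ with hR
  have hMr0 : (0 : ℝ) ≤ M := Nat.cast_nonneg _
  have hRM : R ^ 400 ≤ M := by
    have h8 : (R : ℝ) ≤ (M : ℝ) ^ ((1 : ℝ) / 400) := Nat.floor_le (Real.rpow_nonneg hMr0 _)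
    have h9 : (R : ℝ) ^ 400 ≤ M := by
      calc (R : ℝ) ^ 400 ≤ ((M : ℝ) ^ ((1 : ℝ) / 400)) ^ 400 := pow_le_pow_left₀ (Nat.cast_nonneg _) h8 400
        _ = M := by
          rw [← Real.rpow_natCast, ← Real.rpow_mul hMr0]
          norm_num
    exact_mod_cast h9
  have hRx : x ^ ((1 : ℝ) / 800) / 2 - 1 ≤ R := by
    have h8 : (M : ℝ) ^ ((1 : ℝ) / 400) < R + 1 := Nat.lt_floor_add_one _
    have h9 : x ^ ((1 : ℝ) / 800) / 2 ≤ (M : ℝ) ^ ((1 : ℝ) / 400) := by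
      have h10 : (x ^ ((1 : ℝ) / 800) / 2) = ((x ^ ((1 : ℝ) / 800) / 2) ^ 400) ^ ((1 : ℝ) / 400) := by
        rw [← Real.rpow_natCast, ← Real.rpow_mul (by positivity)]
        norm_num
      rw [h10]
      refine Real.rpow_le_rpow (by positivity) ?_ (by norm_num)
      refine le_trans ?_ hMM
      rw [div_pow, ← Real.rpow_natCast, ← Real.rpow_mul hx0.le, show (1 : ℝ) / 800 * ((400 : ℕ) : ℝ) = 1 / 2 by norm_num, hsq]
      have h11 : (20 : ℝ) ≤ 2 ^ 400 :=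
        le_trans (by norm_num : (20 : ℝ) ≤ 2 ^ 5) (pow_le_pow_right₀ (by norm_num) (by norm_num))
      exact div_le_div_of_nonneg_left (Real.sqrt_nonneg _) (by norm_num) h11
    linarith
  have h800 : x ^ ((1 : ℝ) / 800) = x ^ ((1 : ℝ) / 1000) * x ^ ((1 : ℝ) / 4000) := by
    rw [← Real.rpow_add hx0]; norm_num
  have h1000 : 1 ≤ x ^ ((1 : ℝ) / 1000) := Real.one_le_rpow hx1 (by norm_num)
  have hC0 : (0 : ℝ) ≤ C := Nat.cast_nonneg _
  have hbig : 4 * ((C : ℝ) + 22) * x ^ ((1 : ℝ) / 1000) + 24 ≤ x ^ ((1 : ℝ) / 800) := by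
    rw [h800]
    nlinarith
  set L : ℕ := (R - 8) / 2 with hL
  have hR8 : 8 ≤ R := by
    have : (8 : ℝ) ≤ R := by nlinarith
    exact_mod_cast this
  have hLR : 2 * L + 8 ≤ R := by omega
  have hLr : (R : ℝ) ≤ 2 * L + 9 := by
    have : R ≤ 2 * L + 9 := by omega
    exact_mod_cast this
  set t : ℕ := ⌈y ^ 2⌉₊ with ht
  have ht1 : (t : ℝ) ≤ y ^ 2 + 1 := (Nat.ceil_lt_add_one (by positivity)).le
  have ht2 : y ^ 2 ≤ t := Nat.le_ceil _
  have ht3 : 1 ≤ t := by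
    have : (1 : ℝ) ≤ t := by nlinarith
    exact_mod_cast this
  set z : ℝ := x ^ ((1 : ℝ) / 20000) with hz
  have hz1 : 1 ≤ z := Real.one_le_rpow hx1 (by norm_num)
  have hyz : y ≤ z := by
    rw [← hypow]
    exact le_self_pow₀ hy1 (by omega)
  set P : ℕ := ⌊z⌋₊ with hP
  have hP1 : 1 ≤ P := Nat.le_floor (by exact_mod_cast hz1)
  have hPz : (P : ℝ) ≤ z := Nat.floor_le (by linarith)
  set k : ℕ := ⌈((P : ℝ) + 1) * (5 * y)⌉₊ with hk
  have hk1 : ((P : ℝ) + 1) * (5 * y) ≤ k := Nat.le_ceil _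
  have hk2 : (k : ℝ) ≤ ((P : ℝ) + 1) * (5 * y) + 1 := (Nat.ceil_lt_add_one (by positivity)).le
  have hkz : (k : ℝ) ≤ 11 * z ^ 2 := by
    have h1 : ((P : ℝ) + 1) * (5 * y) ≤ (2 * z) * (5 * z) := by
      refine mul_le_mul (by linarith) (by linarith) (by positivity) (by positivity)
    nlinarith
  have hz7 : z ^ 7 ≤ x ^ ((1 : ℝ) / 1000) := by
    rw [hz, ← Real.rpow_natCast, ← Real.rpow_mul hx0.le]
    exact Real.rpow_le_rpow_of_exponent_le hx1 (by norm_num)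
  have hlen : (2 * k + C) * (p * t) ^ (d + 2) ≤ L := by
    have h := lensP hp hx1 hy hy1 hlp ht1
    have hz2 : 1 ≤ z ^ 2 := one_le_pow₀ hz1
    have hCz : (C : ℝ) ≤ C * z ^ 2 := by
      calc (C : ℝ) = C * 1 := by ring
        _ ≤ C * z ^ 2 := mul_le_mul_of_nonneg_left hz2 hC0
    have h1 : (2 * (k : ℝ) + C) ≤ (22 + C) * z ^ 2 := by
      have e : (22 + (C : ℝ)) * z ^ 2 = 22 * z ^ 2 + C * z ^ 2 := by ring
      rw [e]
      linarith
    have h2 : (2 * (k : ℝ) + C) * (p * t) ^ (d + 2) ≤ (22 + C) * x ^ ((1 : ℝ) / 1000) := by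
      calc (2 * (k : ℝ) + C) * (p * t) ^ (d + 2) ≤ ((22 + C) * z ^ 2) * z ^ 5 :=
            mul_le_mul h1 h (by positivity) (by positivity)
        _ = (22 + C) * z ^ 7 := by ring
        _ ≤ _ := mul_le_mul_of_nonneg_left hz7 (by positivity)
    have h' : (2 * (k : ℝ) + C) * (p * t) ^ (d + 2) ≤ L := by
      refine h2.trans ?_
      have e : 4 * ((C : ℝ) + 22) * x ^ ((1 : ℝ) / 1000) = 4 * ((22 + C) * x ^ ((1 : ℝ) / 1000)) := by ring
      rw [e] at hbig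
      linarith
    exact_mod_cast h'
  set N : ℕ := ⌈(2 : ℝ) ^ y⌉₊ with hN
  have hN1 : (N : ℝ) ≤ 2 ^ y + 1 := (Nat.ceil_lt_add_one (by positivity)).le
  exact ⟨by omega, by omega, R, L, t, N, k, hRM, hLR, ht3, hlen, Nat.le_ceil _, expo hC hx1 hy1 hxy hY hN1 hMx ht2,
    stepsP hx1 hy1 hxy hP1 hk1 hN1 hMx⟩

end ACpFrege
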