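import Pool.Agent.H75.PA.Sound
import Pool.Agent.H75.PA.Num
import Pool.Agent.H65.AF.Assemble

/-!
helper75 (pigeonhole axioms): the final assembly (adapted from H65/AF/Assemble.lean and H98/AF/AOut.lean).
-/

set_option autoImplicit false

namespace ACpFrege

open ACpB

/-- Output of the proof complexity part with pigeonhole axioms, uniform in the depth. -/
def OutPU (p : ℕ) : Prop :=
  ∀ S : List (Rule p), (∀ R ∈ S, R.Sound) → ∀ W : ℕ, ∃ C : ℕ, ∀ (d n : ℕ) (F : CNF) (L A N t k P : ℕ), HasSlow p n F L A →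
    (∀ D ∈ F, D.length ≤ W) → 1 ≤ t → (2 * k + C) * (p * t) ^ (d + 2) ≤ L → N * C * A * 2 ^ t < 3 ^ t →
    N * A * 2 * P ^ k ≤ (P + 1) ^ k → ∀ π : List (Fm p), RefutesP S d P F π → N < psize π

theorem outPU (p : ℕ) [Fact p.Prime] : OutPU p := by
  intro S hS W
  refine ⟨8 * sysC S + W + 3, ?_⟩
  intro d n F L A N t k P hs hF ht hL hN hP π hπ
  by_contra hlt
  rw [not_lt] at hlt
  have hp := (Fact.out : p.Prime).two_le
  have h1 : TA S t d ≤ sysC S * (p * t) ^ (d + 2) := by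
    have e1 : TA S t d = sysC S * (p * (p * t) ^ (d + 1)) := by
      unfold TA
      rw [pow_succ, mul_comm t p]
      ring
    rw [e1, pow_succ (p * t) (d + 1), mul_comm ((p * t) ^ (d + 1)) (p * t)]
    exact Nat.mul_le_mul_left _ (Nat.mul_le_mul_right _ (Nat.le_mul_of_pos_right _ (by omega)))
  have h2 : 1 ≤ (p * t) ^ (d + 2) := Nat.one_le_pow _ _ (Nat.mul_pos (by omega) (by omega))
  have hT : t * (p * (t * p) ^ d) ≤ (p * t) ^ (d + 2) := by
    have e1 : t * (p * (t * p) ^ d) = (p * t) ^ (d + 1) := by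
      rw [pow_succ, mul_comm t p]
      ring
    rw [e1]
    exact Nat.pow_le_pow_right (Nat.mul_pos (by omega) (by omega)) (by omega)
  have h3 : (2 * k + 3) * (t * (p * (t * p) ^ d)) + (8 * TA S t d + W) ≤ L := by
    refine le_trans ?_ hL
    have h4 : W ≤ W * (p * t) ^ (d + 2) := Nat.le_mul_of_pos_right _ h2
    have h5 : (2 * k + 3) * (t * (p * (t * p) ^ d)) ≤ (2 * k + 3) * (p * t) ^ (d + 2) := Nat.mul_le_mul_left _ hT
    have e2 : (2 * k + (8 * sysC S + W + 3)) * (p * t) ^ (d + 2) =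
        (2 * k + 3) * (p * t) ^ (d + 2) + (8 * (sysC S * (p * t) ^ (d + 2)) + W * (p * t) ^ (d + 2)) := by ring
    omega
  have h5 := main_P p S hS d n L A t k P W ht F hF hs h3 π hπ
  have h6 : psize π * A * (4 * sysC S * 2 ^ t * (P + 1) ^ k + 3 ^ t * P ^ k) ≤
      N * A * (4 * sysC S * 2 ^ t * (P + 1) ^ k + 3 ^ t * P ^ k) := Nat.mul_le_mul_right _ (Nat.mul_le_mul_right _ hlt)
  have h7 : N * (8 * sysC S) * A * 2 ^ t ≤ N * (8 * sysC S + W + 3) * A * 2 ^ t :=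
    Nat.mul_le_mul_right _ (Nat.mul_le_mul_right _ (Nat.mul_le_mul_left _ (by omega)))
  have hpos : 0 < (P + 1) ^ k := Nat.pow_pos (by omega)
  have h8 : N * (8 * sysC S) * A * 2 ^ t * (P + 1) ^ k < 3 ^ t * (P + 1) ^ k :=
    Nat.mul_lt_mul_of_pos_right (lt_of_le_of_lt h7 hN) hpos
  have h9 : 3 ^ t * (N * A * 2 * P ^ k) ≤ 3 ^ t * (P + 1) ^ k := Nat.mul_le_mul_left _ hP
  have e3 : 2 * (N * A * (4 * sysC S * 2 ^ t * (P + 1) ^ k + 3 ^ t * P ^ k)) =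
      N * (8 * sysC S) * A * 2 ^ t * (P + 1) ^ k + 3 ^ t * (N * A * 2 * P ^ k) := by ring
  omega

/-- The final statement with pigeonhole axioms. -/
def StatementP : Prop :=
  ∃ (F : ℕ → CNF) (c : ℕ), (∀ n, (F n).Unsat ∧ (F n).size ≤ (n + 2) ^ c ∧ ∀ C ∈ F n, C.length ≤ 8 ∧ ∀ l ∈ C, l.1 < n) ∧
    ∀ p : ℕ, p.Prime → ∀ S : List (Rule p), (∀ R ∈ S, R.Sound) → ∃ n₀ : ℕ, ∀ n ≥ n₀, ∀ d : ℕ,
      Real.log n ^ (d + 1) ≤ (n : ℝ) ^ ((1 : ℝ) / 20000) →
      ∀ π : List (Fm p), RefutesP S d ⌊(n : ℝ) ^ ((1 : ℝ) / 20000)⌋₊ (F n) π →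
        (2 : ℝ) ^ ((n : ℝ) ^ ((1 : ℝ) / (20000 * (d + 1)))) ≤ psize π

theorem assembleP (hA : ∀ (p : ℕ) [Fact p.Prime], OutPU p) (hB : OutBW) (h3 : PartW 3) (h4 : PartW 4) : StatementP := by
  refine ⟨FF, 30, FF_ok, ?_⟩
  intro p hp S hS
  have : Fact p.Prime := ⟨hp⟩
  obtain ⟨C0, hC0⟩ := hA p S hS 8
  obtain ⟨M3, hM3⟩ := h3
  obtain ⟨M4, hM4⟩ := h4
  obtain ⟨n₀, hn₀⟩ := num_exP p (C0 + 1) (max M3 M4) hp.one_lt.le (by omega)
  refine ⟨n₀, fun n hn d hd π hπ => ?_⟩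
  obtain ⟨k1, k2, R, L, t, N, k, k3, k4, k5, k6, k7, k8, k9⟩ := hn₀ n hn d hd
  have hFF : FF n = combC (nv (Nat.sqrt (n / 100)) 3) (ASM (Nat.sqrt (n / 100)) 3) (ASM (Nat.sqrt (n / 100)) 4) := by
    unfold FF
    rw [if_pos k2]
  have hs : HasSlow p (nv (Nat.sqrt (n / 100)) 3 + nv (Nat.sqrt (n / 100)) 4) (FF n) L (Nat.sqrt (n / 100) ^ 2) := by
    rw [hFF]
    by_cases hp3 : p = 3
    · have hco : Nat.Coprime 4 p := by subst hp3; norm_num
      refine slow_combR (hB p 4 (Or.inr rfl) hco _ k2 R L k4 ?_) ASM_vars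
      exact hM4 _ (le_trans (le_max_right _ _) k1) R k3
    · have hco : Nat.Coprime 3 p := by
        rw [Nat.coprime_primes Nat.prime_three hp]
        exact fun h => hp3 h.symm
      refine slow_combL (hB p 3 (Or.inl rfl) hco _ k2 R L k4 ?_) ASM_vars
      exact hM3 _ (le_trans (le_max_left _ _) k1) R k3
  have hv : ∀ D ∈ FF n, D.length ≤ 8 := fun D hD => ((FF_ok n).2.2 D hD).1
  have hfin := hC0 d _ (FF n) L (Nat.sqrt (n / 100) ^ 2) N t k _ hs hv k5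
    (le_trans (Nat.mul_le_mul_right _ (by omega)) k6)
    (lt_of_le_of_lt (Nat.mul_le_mul_right _ (Nat.mul_le_mul_right _ (Nat.mul_le_mul_left _ (Nat.le_succ C0)))) k8) k9 π hπ
  exact k7.trans (by exact_mod_cast hfin.le)

/-- Refutations without pigeonhole axioms are refutations with pigeonhole axioms. -/
theorem RefutesP_of {p : ℕ} {S : List (Rule p)} {d P : ℕ} {F : CNF} {π : List (Fm p)} (h : Refutes S d F π) :
    RefutesP S d P F π := ⟨h.1, fun i hi => Or.inl (h.2.1 i hi), h.2.2⟩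

end ACpFrege
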