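import Pool.Agent.H75.PA.Vec

/-!
helper75 (pigeonhole axioms): on a vector on which an instance of the pigeonhole principle fails, every pigeon is in a (first) hole,
and no two pigeons are in the same hole.
-/

set_option autoImplicit false
open Finset

namespace ACpFrege

variable {K : Type} [Field K] {E : Type} [AddCommGroup E] [Module K E] {n : ℕ} {p : ℕ}

/-- The row of the pigeon `i`. -/
def phRow {m r : ℕ} (ψ : Fin m → Fin r → Fm p) (i : Fin m) : List (Fm p) := (List.finRange r).map (ψ i)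

theorem phRow_length {m r : ℕ} (ψ : Fin m → Fin r → Fm p) (i : Fin m) : (phRow ψ i).length = r := by
  simp [phRow]

theorem phRow_get {m r : ℕ} (ψ : Fin m → Fin r → Fm p) (i : Fin m) (j : Fin r) (h : (j : ℕ) < (phRow ψ i).length) :
    (phRow ψ i)[(j : ℕ)] = ψ i j := by
  simp [phRow]

theorem phRow_mem {m r : ℕ} (ψ : Fin m → Fin r → Fm p) (i : Fin m) (j : Fin r) : ψ i j ∈ phRow ψ i := by
  unfold phRow
  exact List.mem_map_of_mem (List.mem_finRange j)

/-- The members of the pigeonhole formula. -/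
def phMem {m r : ℕ} (ψ : Fin m → Fin r → Fm p) : List (Fm p) :=
  ((List.finRange m).map fun i => .neg (cnL true (phRow ψ i))) ++
    (List.finRange m).flatMap fun i => ((List.finRange m).filter fun i' => i < i').flatMap fun i' =>
      (List.finRange r).map fun j => cnL false [ψ i j, ψ i' j]

theorem phpFm_eq {m r : ℕ} (ψ : Fin m → Fin r → Fm p) : phpFm ψ = cnL true (phMem ψ) := rfl

theorem phMem_row {m r : ℕ} (ψ : Fin m → Fin r → Fm p) (i : Fin m) : Fm.neg (cnL true (phRow ψ i)) ∈ phMem ψ := by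
  unfold phMem
  rw [List.mem_append]
  left
  exact List.mem_map.2 ⟨i, List.mem_finRange i, rfl⟩

theorem phMem_col {m r : ℕ} (ψ : Fin m → Fin r → Fm p) {i i' : Fin m} (h : i < i') (j : Fin r) :
    cnL false [ψ i j, ψ i' j] ∈ phMem ψ := by
  unfold phMem
  rw [List.mem_append]
  right
  rw [List.mem_flatMap]
  refine ⟨i, List.mem_finRange i, ?_⟩
  rw [List.mem_flatMap]
  refine ⟨i', ?_, List.mem_map.2 ⟨j, List.mem_finRange j, rfl⟩⟩
  rw [List.mem_filter]
  exact ⟨List.mem_finRange i', by simpa using h⟩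

theorem phRow_sub {m r : ℕ} (ψ : Fin m → Fin r → Fm p) (i : Fin m) : cnL true (phRow ψ i) ∈ (phpFm ψ).subs := by
  rw [phpFm_eq]
  exact subs_trans (subs_mem_cnL (phMem_row ψ i)) subs_mem_neg

theorem ph_sub {m r : ℕ} (ψ : Fin m → Fin r → Fm p) (i : Fin m) (j : Fin r) : ψ i j ∈ (phpFm ψ).subs :=
  subs_trans (phRow_sub ψ i) (subs_mem_cnL (phRow_mem ψ i j))

private theorem PAPhp_le [Fact p.Prime] {t d : ℕ} (ht : 1 ≤ t) : (t * p) ^ d ≤ t * (p * (t * p) ^ d) := by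
  have hp : 1 ≤ p := (Fact.out : p.Prime).one_lt.le
  calc (t * p) ^ d = 1 * (1 * (t * p) ^ d) := by ring
    _ ≤ t * (p * (t * p) ^ d) := Nat.mul_le_mul ht (Nat.mul_le_mul_right _ hp)

/-- A member of the failing instance is false. -/
theorem php_mem [Fact p.Prime] [CharP K p] (s : Slow K E n) {t e d : ℕ} (ht : 1 ≤ t) {f : E} (hf : f ∈ s.M 0) {m r : ℕ}
    (ψ : Fin m → Fin r → Fm p) (hd : (phpFm ψ).dep 0 ≤ d) (hR : ∀ B ∈ (phpFm ψ).subs, s.Resp t e f B)
    (hL : 8 * (t * (p * (t * p) ^ d)) ≤ s.L) (hZ : s.Z f (s.h t e (phpFm ψ))) {B : Fm p} (hB : B ∈ phMem ψ) :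
    s.Z f (s.h t e B) := by
  have hdm : ∀ A ∈ phMem ψ, A.dep 0 ≤ d := fun A hA => (dep_subs (subs_mem_cnL (k := true) hA)).trans hd
  have h1 := gate_mem s (e := e) ht hf hdm (k := true) (hR _ (subs_self _)) hB (by omega)
  have e1 : ∀ g : Pt n → K, pl true g = g := fun g => by
    unfold pl
    rw [if_pos rfl]
  rw [e1, e1] at h1
  have hdB : s.h t e B ∈ Dg K n (t * (p * (t * p) ^ d)) := Dg_mono (PAPhp_le ht) (deg_h s e ht (hdm B hB))
  have hdA : s.h t e (phpFm ψ) ∈ Dg K n (t * (p * (t * p) ^ d)) := Dg_mono (PAPhp_le ht) (deg_h s e ht hd)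
  have h2 := Z_mul s hf hdB hdA hZ (by omega)
  have h3 : s.h t e B = (1 - s.h t e (cnL true (phMem ψ))) * s.h t e B + s.h t e B * s.h t e (phpFm ψ) := by
    rw [phpFm_eq]
    ring
  rw [h3]
  exact Z_add s h1 h2

/-- Every pigeon is in a hole. -/
theorem php_row [Fact p.Prime] [CharP K p] (s : Slow K E n) {t e d : ℕ} (ht : 1 ≤ t) {f : E} (hf : f ∈ s.M 0) {m r : ℕ}
    (ψ : Fin m → Fin r → Fm p) (hd : (phpFm ψ).dep 0 ≤ d) (hR : ∀ B ∈ (phpFm ψ).subs, s.Resp t e f B)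
    (hR' : ∀ i, ∀ j, j ≤ r → s.Resp t e f (cnL true ((phRow ψ i).take j))) (hL : 8 * (t * (p * (t * p) ^ d)) ≤ s.L)
    (hZ : s.Z f (s.h t e (phpFm ψ))) (i : Fin m) :
    s.Z f (1 - ∑ j : Fin r, s.py t e (phRow ψ i) j (ψ i j)) := by
  have h1 := php_mem s ht hf ψ hd hR hL hZ (phMem_row ψ i)
  rw [h_neg] at h1
  have hl : ∀ A ∈ phRow ψ i, A.dep 0 ≤ d := fun A hA =>
    (dep_subs (subs_trans (phRow_sub ψ i) (subs_mem_cnL hA))).trans hd
  have hRl : ∀ A ∈ phRow ψ i, s.Resp t e f A := fun A hA => hR A (subs_trans (phRow_sub ψ i) (subs_mem_cnL hA))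
  have h2 := py_sum s ht hf hl hRl (fun j hj => hR' i j (by rw [phRow_length] at hj; exact hj)) hL r
    (by rw [phRow_length])
  have h3 : (phRow ψ i).take r = phRow ψ i := by
    rw [List.take_of_length_le]
    rw [phRow_length]
  rw [h3] at h2
  have h4 : (∑ j : Fin r, s.py t e (phRow ψ i) j ((phRow ψ i)[(j : ℕ)]'(by rw [phRow_length]; exact j.2))) =
      ∑ j : Fin r, s.py t e (phRow ψ i) j (ψ i j) := Finset.sum_congr rfl fun j _ => by rw [phRow_get]
  have h5 := Z_add s h1 h2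
  rw [h4] at h5
  have h6 : 1 - s.h t e (cnL true (phRow ψ i)) + (s.h t e (cnL true (phRow ψ i)) - ∑ j : Fin r, s.py t e (phRow ψ i) j (ψ i j)) =
      1 - ∑ j : Fin r, s.py t e (phRow ψ i) j (ψ i j) := by ring
  rw [h6] at h5
  exact h5

private theorem PAPhp_col [Fact p.Prime] [CharP K p] (s : Slow K E n) {t e d : ℕ} (ht : 1 ≤ t) {f : E} (hf : f ∈ s.M 0) {m r : ℕ}
    (ψ : Fin m → Fin r → Fm p) (hd : (phpFm ψ).dep 0 ≤ d) (hR : ∀ B ∈ (phpFm ψ).subs, s.Resp t e f B)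
    (hL : 8 * (t * (p * (t * p) ^ d)) ≤ s.L)
    (hZ : s.Z f (s.h t e (phpFm ψ))) {i i' : Fin m} (h : i < i') (j : Fin r) :
    s.Z f (s.h t e (ψ i j) * s.h t e (ψ i' j)) := by
  have h1 := php_mem s ht hf ψ hd hR hL hZ (phMem_col ψ h j)
  have hd' : ∀ A ∈ [ψ i j, ψ i' j], A.dep 0 ≤ d ∧ s.Resp t e f A := by
    intro A hA
    simp only [List.mem_cons, List.not_mem_nil, or_false] at hA
    rcases hA with rfl | rfl
    · exact ⟨(dep_subs (ph_sub ψ i j)).trans hd, hR _ (ph_sub ψ i j)⟩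
    · exact ⟨(dep_subs (ph_sub ψ i' j)).trans hd, hR _ (ph_sub ψ i' j)⟩
  have hdg : ∀ A ∈ [ψ i j, ψ i' j], s.h t e A ∈ Dg K n (t * (p * (t * p) ^ d)) := fun A hA =>
    Dg_mono (PAPhp_le ht) (deg_h s e ht (hd' A hA).1)
  have hP : s.h t e (ψ i j) * s.h t e (ψ i' j) ∈ Dg K n (2 * (t * (p * (t * p) ^ d))) := by
    have h4 : 2 * (t * (p * (t * p) ^ d)) = t * (p * (t * p) ^ d) + t * (p * (t * p) ^ d) := by ring
    rw [h4]
    exact Dg_mul (hdg _ (by simp)) (hdg _ (by simp))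
  have h2 := gate_of_mem s (e := e) (T := 2 * (t * (p * (t * p) ^ d))) ht hf (fun A hA => (hd' A hA).1)
    (fun A hA => (hd' A hA).2) hP (by omega) (by omega) (k := false) (fun A hA => by
      simp only [List.mem_cons, List.not_mem_nil, or_false] at hA
      have h0 : s.h t e (ψ i j) * s.h t e (ψ i' j) * pl false (s.h t e A) = 0 := by
        funext x
        show s.h t e (ψ i j) x * s.h t e (ψ i' j) x * (pl false (s.h t e A)) x = 0
        unfold pl
        rw [if_neg Bool.false_ne_true]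
        show s.h t e (ψ i j) x * s.h t e (ψ i' j) x * (1 - s.h t e A x) = 0
        rcases hA with rfl | rfl
        · rcases h_bv s t e (ψ i j) x with h | h <;> rw [h] <;> ring
        · rcases h_bv s t e (ψ i' j) x with h | h <;> rw [h] <;> ring
      rw [h0]
      exact Z_zero s f)
  have hdC : (cnL false [ψ i j, ψ i' j]).dep 0 ≤ d :=
    (dep_subs (subs_mem_cnL (k := true) (phMem_col ψ h j))).trans hd
  have hdC' : s.h t e (cnL false [ψ i j, ψ i' j]) ∈ Dg K n (t * (p * (t * p) ^ d)) := Dg_mono (PAPhp_le ht) (deg_h s e ht hdC)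
  have h3 := Z_mul s hf hP hdC' h1 (by omega)
  have h5 : s.h t e (ψ i j) * s.h t e (ψ i' j) = s.h t e (ψ i j) * s.h t e (ψ i' j) *
      pl false (s.h t e (cnL false [ψ i j, ψ i' j])) + s.h t e (ψ i j) * s.h t e (ψ i' j) * s.h t e (cnL false [ψ i j, ψ i' j]) := by
    unfold pl
    rw [if_neg Bool.false_ne_true]
    ring
  rw [h5]
  exact Z_add s h2 h3

/-- No two pigeons are in the same hole. -/
theorem php_col [Fact p.Prime] [CharP K p] (s : Slow K E n) {t e d : ℕ} (ht : 1 ≤ t) {f : E} (hf : f ∈ s.M 0) {m r : ℕ}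
    (ψ : Fin m → Fin r → Fm p) (hd : (phpFm ψ).dep 0 ≤ d) (hR : ∀ B ∈ (phpFm ψ).subs, s.Resp t e f B)
    (hL : 8 * (t * (p * (t * p) ^ d)) ≤ s.L)
    (hZ : s.Z f (s.h t e (phpFm ψ))) {i i' : Fin m} (h : i ≠ i') (j : Fin r) :
    s.Z f (s.py t e (phRow ψ i) j (ψ i j) * s.py t e (phRow ψ i') j (ψ i' j)) := by
  have hc : s.Z f (s.h t e (ψ i j) * s.h t e (ψ i' j)) := by
    rcases lt_or_gt_of_ne h with h | h
    · exact PAPhp_col s ht hf ψ hd hR hL hZ h j
    · have := PAPhp_col s ht hf ψ hd hR hL hZ h j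
      rw [mul_comm] at this
      exact this
  have hz : ∀ i, s.h t e (cnL true ((phRow ψ i).take j)) ∈ Dg K n (t * (p * (t * p) ^ d)) := fun i =>
    deg_cnL s e ht (l := (phRow ψ i).take j) (fun A hA =>
      (dep_subs (subs_trans (phRow_sub ψ i) (subs_mem_cnL (List.mem_of_mem_take hA)))).trans hd) true
  have hdg : ∀ i, s.h t e (ψ i j) ∈ Dg K n (t * (p * (t * p) ^ d)) := fun i =>
    Dg_mono (PAPhp_le ht) (deg_h s e ht ((dep_subs (ph_sub ψ i j)).trans hd))
  have h1 := Z_mul s hf (Dg_mul (Submodule.sub_mem _ (Dg_one _) (hz i)) (Submodule.sub_mem _ (Dg_one _) (hz i')))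
    (Dg_mul (hdg i) (hdg i')) hc (by omega)
  have h2 : s.py t e (phRow ψ i) j (ψ i j) * s.py t e (phRow ψ i') j (ψ i' j) =
      (1 - s.h t e (cnL true ((phRow ψ i).take j))) * (1 - s.h t e (cnL true ((phRow ψ i').take j))) *
        (s.h t e (ψ i j) * s.h t e (ψ i' j)) := by
    unfold Slow.py
    ring
  rw [h2]
  exact h1

end ACpFrege
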