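import Pool.Agent.H75.PA.Php
import Pool.Agent.H75.PA.Dim

/-!
helper75 (pigeonhole axioms): the failure subspace of an instance of the pigeonhole principle is small.
`s.shift j0`: the module `s` without its first `j0` levels (the same operators); the values `h` are those of the shifted module,
`Rsp`: the vectors which respect all gates of a list. `W l` := the image of the respecting vectors of `M l` under `1 - value`; the first
holes give `(P + 1) dim W l ≤ P dim W (l + 2 e1)`.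
-/

set_option autoImplicit false
open Finset

namespace ACpFrege

variable {K : Type} [Field K] {E : Type} [AddCommGroup E] [Module K E] {n : ℕ} {p : ℕ}

/-- The module without its first `j0` levels. -/
def Slow.shift (s : Slow K E n) (j0 : ℕ) : Slow K E n where
  X := s.X
  M := fun j => s.M (j0 + j)
  L := s.L - j0
  up := fun j hj => s.up (j0 + j) (by omega)
  map := fun i j hj m hm => s.map i (j0 + j) (by omega) m hm
  idem := fun i j hj m hm => s.idem i (j0 + j) (by omega) m hm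
  comm := fun i i' j hj m hm => s.comm i i' (j0 + j) (by omega) m hm

theorem shift_act (s : Slow K E n) (j0 : ℕ) (f : Pt n → K) : (s.shift j0).act f = s.act f := rfl

theorem shift_Z (s : Slow K E n) (j0 : ℕ) (f : E) (P : Pt n → K) : (s.shift j0).Z f P ↔ s.act P f = 0 := Iff.rfl

/-- The functions which kill the vectors respecting the gates of `Λ`. -/
def Slow.kf (s : Slow K E n) (t e : ℕ) (Λ : List (Fm p)) : Set (Pt n → K) :=
  {P | ∃ k l g, cnL k l ∈ Λ ∧ g ∈ s.fl t e k l ∧ P = (1 - pl k (s.gv p t e k (s.fl t e k l))) * pl k g}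

/-- The vectors which respect the gates of `Λ`. -/
noncomputable def Slow.Rsp (s : Slow K E n) (t e : ℕ) (Λ : List (Fm p)) : Submodule K E :=
  ⨅ P ∈ s.kf t e Λ, LinearMap.ker (s.act P)

theorem mem_Rsp (s : Slow K E n) (t e : ℕ) (Λ : List (Fm p)) (f : E) : f ∈ s.Rsp t e Λ ↔ ∀ P ∈ s.kf t e Λ, s.act P f = 0 := by
  unfold Slow.Rsp
  simp only [Submodule.mem_iInf, LinearMap.mem_ker]

theorem Rsp_iff (s : Slow K E n) (t e : ℕ) (Λ : List (Fm p)) (f : E) : f ∈ s.Rsp t e Λ ↔ ∀ B ∈ Λ, s.Resp t e f B := by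
  rw [mem_Rsp]
  constructor
  · intro h B hB
    by_cases hB' : ∃ k l, B = cnL k l
    · obtain ⟨k, l, rfl⟩ := hB'
      rw [resp_iff]
      intro g hg
      exact h _ ⟨k, l, g, hB, hg, rfl⟩
    · exact resp_triv s t e f B fun k l hkl => hB' ⟨k, l, hkl⟩
  · rintro h P ⟨k, l, g, hkl, hg, rfl⟩
    exact (resp_iff s t e f k l).1 (h _ hkl) g hg

/-- The degree of the killing functions. -/
theorem kf_dg [Fact p.Prime] (s : Slow K E n) {t : ℕ} (e : ℕ) {d : ℕ} (ht : 1 ≤ t) {Λ : List (Fm p)}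
    (hΛ : ∀ k l, cnL k l ∈ Λ → ∀ A ∈ l, A.dep 0 ≤ d) {P : Pt n → K} (hP : P ∈ s.kf t e Λ) :
    P ∈ Dg K n (2 * (t * (p * (t * p) ^ d))) := by
  obtain ⟨k, l, g, hkl, hg, rfl⟩ := hP
  have hle : (t * p) ^ d ≤ t * (p * (t * p) ^ d) := by
    have hp : 1 ≤ p := (Fact.out : p.Prime).one_lt.le
    calc (t * p) ^ d = 1 * (1 * (t * p) ^ d) := by ring
      _ ≤ t * (p * (t * p) ^ d) := Nat.mul_le_mul ht (Nat.mul_le_mul_right _ hp)
  have h1 := deg_cnL s e ht (hΛ k l hkl) k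
  rw [h_cnL] at h1
  have h2 := deg_fl s e ht (hΛ k l hkl) k g hg
  have h3 : 2 * (t * (p * (t * p) ^ d)) = t * (p * (t * p) ^ d) + t * (p * (t * p) ^ d) := by ring
  rw [h3]
  exact Dg_mul (Submodule.sub_mem _ (Dg_one _) (pl_dg h1)) (pl_dg (Dg_mono hle h2))

/-- Multiplication keeps the vectors in `Rsp`. -/
theorem Rsp_mul [Fact p.Prime] (s : Slow K E n) (j0 : ℕ) {t : ℕ} (e : ℕ) {d : ℕ} (ht : 1 ≤ t) {Λ : List (Fm p)}
    (hΛ : ∀ k l, cnL k l ∈ Λ → ∀ A ∈ l, A.dep 0 ≤ d) {j a : ℕ} {g : Pt n → K} (hg : g ∈ Dg K n a)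
    (hL : j + a + 2 * (t * (p * (t * p) ^ d)) ≤ s.L) {m : E} (hm : m ∈ (s.shift j0).Rsp t e Λ ⊓ s.M j) :
    s.act g m ∈ (s.shift j0).Rsp t e Λ ⊓ s.M (j + a) := by
  rw [Submodule.mem_inf] at hm ⊢
  refine ⟨?_, act_mem s hm.2 hg (by omega)⟩
  rw [mem_Rsp]
  intro P hP
  have hPd := kf_dg (s.shift j0) e ht hΛ hP
  have h1 : s.act P m = 0 := (mem_Rsp _ t e Λ m).1 hm.1 P hP
  show s.act P (s.act g m) = 0
  rw [act_mul s hm.2 hPd hg (by omega), mul_comm, ← act_mul s hm.2 hg hPd (by omega), h1, map_zero]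

/-- The dimension step. -/
theorem php_step [FiniteDimensional K E] [Fact p.Prime] [CharP K p] (s : Slow K E n) {j0 t e d : ℕ} (ht : 1 ≤ t) {Λ : List (Fm p)}
    (hΛ : ∀ k l, cnL k l ∈ Λ → ∀ A ∈ l, A.dep 0 ≤ d) {m r : ℕ} (ψ : Fin m → Fin r → Fm p) (hd : (phpFm ψ).dep 0 ≤ d)
    (hs : ∀ B ∈ (phpFm ψ).subs, B ∈ Λ) (hz : ∀ i j, j ≤ r → cnL true ((phRow ψ i).take j) ∈ Λ)
    (hL : j0 + 8 * (t * (p * (t * p) ^ d)) ≤ s.L) {l : ℕ} (hl : l + 3 * (t * (p * (t * p) ^ d)) ≤ j0) :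
    m * Module.finrank K (((s.shift j0).Rsp t e Λ ⊓ s.M l).map (s.act (1 - (s.shift j0).h t e (phpFm ψ)))) ≤
      r * Module.finrank K (((s.shift j0).Rsp t e Λ ⊓ s.M (l + 2 * (t * (p * (t * p) ^ d)))).map
        (s.act (1 - (s.shift j0).h t e (phpFm ψ)))) := by
  obtain ⟨T, hT⟩ : ∃ T, T = t * (p * (t * p) ^ d) := ⟨_, rfl⟩
  obtain ⟨b, hb⟩ : ∃ b, b = 1 - (s.shift j0).h t e (phpFm ψ) := ⟨_, rfl⟩
  rw [← hb]
  have hle : (t * p) ^ d ≤ T := by
    have hp : 1 ≤ p := (Fact.out : p.Prime).one_lt.le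
    rw [hT]
    calc (t * p) ^ d = 1 * (1 * (t * p) ^ d) := by ring
      _ ≤ t * (p * (t * p) ^ d) := Nat.mul_le_mul ht (Nat.mul_le_mul_right _ hp)
  have hdb : b ∈ Dg K n T := by
    rw [hb]
    exact Submodule.sub_mem _ (Dg_one _) (Dg_mono hle (deg_h (s.shift j0) e ht hd))
  have hrow : ∀ i, ∀ A ∈ phRow ψ i, A.dep 0 ≤ d := fun i A hA =>
    (dep_subs (subs_trans (phRow_sub ψ i) (subs_mem_cnL hA))).trans hd
  have hdy : ∀ (i : Fin m) (j : Fin r), (s.shift j0).py t e (phRow ψ i) j (ψ i j) ∈ Dg K n (2 * T) := fun i j => by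
    rw [hT]
    exact py_dg (s.shift j0) ht (hrow i) j (phRow_mem ψ i j)
  have hLs : 8 * (t * (p * (t * p) ^ d)) ≤ (s.shift j0).L := by
    show 8 * (t * (p * (t * p) ^ d)) ≤ s.L - j0
    omega
  -- the elements of the image
  have hw : ∀ l', l' + T ≤ j0 → ∀ w ∈ ((s.shift j0).Rsp t e Λ ⊓ s.M l').map (s.act b), w ∈ s.M (l' + T) ∧
      w ∈ (s.shift j0).M 0 ∧ (∀ B ∈ Λ, (s.shift j0).Resp t e w B) ∧ (s.shift j0).Z w ((s.shift j0).h t e (phpFm ψ)) := by
    intro l' hl' w hw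
    obtain ⟨u, hu, rfl⟩ := Submodule.mem_map.1 hw
    have hu' := Rsp_mul s j0 e ht hΛ hdb (by rw [← hT]; omega) hu
    rw [Submodule.mem_inf] at hu'
    refine ⟨hu'.2, ?_, ?_, ?_⟩
    · show s.act b u ∈ s.M (j0 + 0)
      exact M_le s (by omega) (by omega) hu'.2
    · exact (Rsp_iff (s.shift j0) t e Λ _).1 hu'.1
    · show s.act ((s.shift j0).h t e (phpFm ψ)) (s.act b u) = 0
      rw [Submodule.mem_inf] at hu
      rw [act_mul s hu.2 (Dg_mono hle (deg_h (s.shift j0) e ht hd)) hdb (by omega)]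
      have h0 : (s.shift j0).h t e (phpFm ψ) * b = 0 := by
        rw [hb]
        funext x
        show (s.shift j0).h t e (phpFm ψ) x * (1 - (s.shift j0).h t e (phpFm ψ) x) = 0
        rcases h_bv (s.shift j0) t e (phpFm ψ) x with h | h <;> rw [h] <;> ring
      rw [h0, act_zero]
      rfl
  have hl0 : l + T ≤ j0 := by omega
  refine PA_dim _ _ (fun i j => s.act ((s.shift j0).py t e (phRow ψ i) j (ψ i j))) ?_ ?_ ?_ ?_
  · intro i w hw'
    obtain ⟨_, h2, h3, h4⟩ := hw l hl0 w hw'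
    have h5 := php_row (s.shift j0) ht h2 ψ hd (fun B hB => h3 B (hs B hB)) (fun i j hj => h3 _ (hz i j hj)) hLs h4 i
    have h6 : s.act (1 - ∑ j : Fin r, (s.shift j0).py t e (phRow ψ i) j (ψ i j)) w = 0 := h5
    rw [act_sub, act_sum, act_one] at h6
    rw [LinearMap.sub_apply, LinearMap.sum_apply, LinearMap.id_apply, sub_eq_zero] at h6
    exact h6.symm
  · intro i j w hw'
    obtain ⟨u, hu, rfl⟩ := Submodule.mem_map.1 hw'
    have hu' := Rsp_mul s j0 e ht hΛ (hdy i j) (by rw [← hT]; omega) hu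
    rw [Submodule.mem_inf] at hu
    refine Submodule.mem_map.2 ⟨s.act ((s.shift j0).py t e (phRow ψ i) j (ψ i j)) u, ?_, ?_⟩
    · rw [← hT]
      exact hu'
    · rw [act_mul s hu.2 hdb (hdy i j) (by omega), act_mul s hu.2 (hdy i j) hdb (by omega), mul_comm]
  · intro i j w hw'
    obtain ⟨h1, _, _, _⟩ := hw l hl0 w hw'
    show s.act _ (s.act _ w) = s.act _ w
    rw [act_mul s h1 (hdy i j) (hdy i j) (by omega), py_bv]
  · intro i i' hii j w hw'
    obtain ⟨h1, h2, h3, h4⟩ := hw l hl0 w hw'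
    have h5 := php_col (s.shift j0) ht h2 ψ hd (fun B hB => h3 B (hs B hB)) hLs h4 hii j
    show s.act _ (s.act _ w) = 0
    rw [act_mul s h1 (hdy i j) (hdy i' j) (by omega)]
    exact h5

/-- The failure subspace is small. -/
theorem php_rank [FiniteDimensional K E] [Fact p.Prime] [CharP K p] (s : Slow K E n) {j0 t e d P k : ℕ} (ht : 1 ≤ t)
    {Λ : List (Fm p)} (hΛ : ∀ k l, cnL k l ∈ Λ → ∀ A ∈ l, A.dep 0 ≤ d) {m r : ℕ} (ψ : Fin m → Fin r → Fm p)
    (hd : (phpFm ψ).dep 0 ≤ d) (hs : ∀ B ∈ (phpFm ψ).subs, B ∈ Λ) (hz : ∀ i j, j ≤ r → cnL true ((phRow ψ i).take j) ∈ Λ)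
    (hm : 1 ≤ m) (hP : (P + 1) * r ≤ P * m) (hL : j0 + 8 * (t * (p * (t * p) ^ d)) ≤ s.L) (l : ℕ)
    (hl : l + (2 * k + 3) * (t * (p * (t * p) ^ d)) ≤ j0) :
    (P + 1) ^ k * Module.finrank K (((s.shift j0).Rsp t e Λ ⊓ s.M l).map (s.act (1 - (s.shift j0).h t e (phpFm ψ)))) ≤
      P ^ k * Module.finrank K (s.M s.L) := by
  obtain ⟨T, hT⟩ : ∃ T, T = t * (p * (t * p) ^ d) := ⟨_, rfl⟩
  obtain ⟨W, hW⟩ : ∃ W : ℕ → Submodule K E, W = fun l => ((s.shift j0).Rsp t e Λ ⊓ s.M l).map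
    (s.act (1 - (s.shift j0).h t e (phpFm ψ))) := ⟨_, rfl⟩
  have hstep : ∀ l, l + 3 * T ≤ j0 → (P + 1) * Module.finrank K (W l) ≤ P * Module.finrank K (W (l + 2 * T)) := by
    intro l hl
    have h1 := php_step s (e := e) ht hΛ ψ hd hs hz hL (l := l) (by rw [← hT]; exact hl)
    have h2 : m * Module.finrank K (W l) ≤ r * Module.finrank K (W (l + 2 * T)) := by
      rw [hW, hT]
      exact h1
    rcases Nat.eq_zero_or_pos r with hr | hr
    · rw [hr, zero_mul] at h2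
      have h3 : Module.finrank K (W l) = 0 := by
        rcases Nat.eq_zero_or_pos (Module.finrank K (W l)) with h | h
        · exact h
        · have := Nat.mul_pos hm h
          omega
      rw [h3, mul_zero]
      exact Nat.zero_le _
    · have h3 : r * ((P + 1) * Module.finrank K (W l)) ≤ r * (P * Module.finrank K (W (l + 2 * T))) := by
        calc r * ((P + 1) * Module.finrank K (W l)) = ((P + 1) * r) * Module.finrank K (W l) := by ring
          _ ≤ (P * m) * Module.finrank K (W l) := Nat.mul_le_mul_right _ hP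
          _ = P * (m * Module.finrank K (W l)) := by ring
          _ ≤ P * (r * Module.finrank K (W (l + 2 * T))) := Nat.mul_le_mul_left _ h2
          _ = r * (P * Module.finrank K (W (l + 2 * T))) := by ring
      exact Nat.le_of_mul_le_mul_left h3 hr
  have hle : (t * p) ^ d ≤ T := by
    have hp : 1 ≤ p := (Fact.out : p.Prime).one_lt.le
    rw [hT]
    calc (t * p) ^ d = 1 * (1 * (t * p) ^ d) := by ring
      _ ≤ t * (p * (t * p) ^ d) := Nat.mul_le_mul ht (Nat.mul_le_mul_right _ hp)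
  have hend : ∀ l, l + T ≤ j0 → Module.finrank K (W l) ≤ Module.finrank K (s.M s.L) := by
    intro l hl
    refine Submodule.finrank_mono ?_
    rw [hW]
    intro w hw
    obtain ⟨u, hu, rfl⟩ := Submodule.mem_map.1 hw
    rw [Submodule.mem_inf] at hu
    refine M_le s (by omega : l + T ≤ s.L) le_rfl ?_
    exact act_mem s hu.2 (Submodule.sub_mem _ (Dg_one _) (Dg_mono hle (deg_h (s.shift j0) e ht hd))) (by omega)
  have key : ∀ k l, l + (2 * k + 3) * T ≤ j0 → (P + 1) ^ k * Module.finrank K (W l) ≤ P ^ k * Module.finrank K (s.M s.L) := by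
    intro k
    induction k with
    | zero =>
      intro l hl
      rw [pow_zero, pow_zero, one_mul, one_mul]
      exact hend l (by omega)
    | succ k ih =>
      intro l hl
      have e1 : (2 * (k + 1) + 3) * T = 2 * T + (2 * k + 3) * T := by ring
      rw [e1] at hl
      have h0 : 3 * T ≤ (2 * k + 3) * T := Nat.mul_le_mul_right _ (by omega)
      have h1 := hstep l (by omega)
      have h2 := ih (l + 2 * T) (by omega)
      calc (P + 1) ^ (k + 1) * Module.finrank K (W l) = (P + 1) ^ k * ((P + 1) * Module.finrank K (W l)) := by ring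
        _ ≤ (P + 1) ^ k * (P * Module.finrank K (W (l + 2 * T))) := Nat.mul_le_mul_left _ h1
        _ = P * ((P + 1) ^ k * Module.finrank K (W (l + 2 * T))) := by ring
        _ ≤ P * (P ^ k * Module.finrank K (s.M s.L)) := Nat.mul_le_mul_left _ h2
        _ = P ^ (k + 1) * Module.finrank K (s.M s.L) := by ring
  have h := key k l (by rw [hT]; exact hl)
  rw [hW] at h
  exact h

end ACpFrege
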