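import Pool.Agent.H75.PA.Gates

/-!
helper75 (pigeonhole axioms): lower bound for refutations with pigeonhole axioms from a slow module.
-/

set_option autoImplicit false
open Finset

namespace ACpFrege

variable {K : Type} [Field K] {E : Type} [AddCommGroup E] [Module K E] {n : ℕ} {p : ℕ}

private theorem PAS_pick [FiniteDimensional K E] [Fact p.Prime] [CharP K p] (s : Slow K E n) {t e : ℕ} (Λ : List (Fm p))
    (hΛ : ∀ k l, cnL k l ∈ Λ → ∀ g ∈ s.fl t e k l, g ∈ Dg K n e) (hL : (t + 4) * (p * e) ≤ s.L) :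
    ∃ W : Submodule K E, W ≤ s.M 0 ∧ (∀ f ∈ W, ∀ B ∈ Λ, s.Resp t e f B) ∧
      3 ^ t * Module.finrank K (s.M 0) ≤
        3 ^ t * Module.finrank K W + Λ.length * (2 ^ t * Module.finrank K (s.M (t * e))) := by
  induction Λ with
  | nil =>
    refine ⟨s.M 0, le_rfl, ?_, ?_⟩
    · intro f _ B hB
      exact absurd hB List.not_mem_nil
    · simp
  | cons B Λ ih =>
    obtain ⟨W, hW0, hWR, hWd⟩ := ih (fun k l hkl => hΛ k l (List.mem_cons_of_mem _ hkl))
    by_cases hB : ∃ k l, B = cnL k l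
    · obtain ⟨k, l, hkl⟩ := hB
      have hmem : cnL k l ∈ B :: Λ := by
        rw [← hkl]
        exact List.mem_cons_self
      obtain ⟨W1, hW10, hW1R, hW1d⟩ := pick1 s k (s.fl t e k l)
        (fun g hg => ⟨fl_bv s t e k l g hg, hΛ k l hmem g hg⟩) hL
      refine ⟨W ⊓ W1, le_trans inf_le_left hW0, ?_, ?_⟩
      · intro f hf C hC
        rw [Submodule.mem_inf] at hf
        rcases List.mem_cons.1 hC with hCB | hC
        · rw [hCB, hkl, resp_iff]
          exact hW1R f hf.2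
        · exact hWR f hf.1 C hC
      · have h3 := inter_bound (s.M 0) W W1 hW0 hW10
        have h4 := Nat.mul_le_mul_left (3 ^ t) h3
        rw [Nat.mul_add, Nat.mul_add] at h4
        rw [List.length_cons, Nat.add_mul, Nat.one_mul]
        omega
    · refine ⟨W, hW0, ?_, ?_⟩
      · intro f hf C hC
        rcases List.mem_cons.1 hC with hCB | hC
        · rw [hCB]
          apply resp_triv
          intro k l hkl
          exact hB ⟨k, l, hkl⟩
        · exact hWR f hf C hC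
      · rw [List.length_cons, Nat.add_mul, Nat.one_mul]
        omega

/-- The codimension of the respecting vectors of the bottom level. -/
theorem PA_codimR [FiniteDimensional K E] [Fact p.Prime] [CharP K p] (s : Slow K E n) {j0 t d : ℕ} (ht : 1 ≤ t)
    {Λ : List (Fm p)} (hΛ : ∀ k l, cnL k l ∈ Λ → ∀ A ∈ l, A.dep 0 ≤ d)
    (hL : j0 + 8 * (p * (t * (p * (t * p) ^ d))) ≤ s.L) :
    3 ^ t * Module.finrank K (s.M 0) ≤ 3 ^ t * Module.finrank K ↥((s.shift j0).Rsp t ((t * p) ^ d) Λ ⊓ s.M 0) +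
      Λ.length * (2 ^ t * Module.finrank K (s.M s.L)) := by
  have hp := (Fact.out : p.Prime).two_le
  have h8 : (t + 4) * (p * (t * p) ^ d) ≤ 4 * (p * (t * (p * (t * p) ^ d))) := by
    have h9 : (t + 4) * (p * (t * p) ^ d) ≤ (4 * (p * t)) * (p * (t * p) ^ d) := by
      refine Nat.mul_le_mul_right _ ?_
      have h10 : 2 * t ≤ p * t := Nat.mul_le_mul_right _ hp
      omega
    refine h9.trans (le_of_eq ?_)
    ring
  have h7 : t * (t * p) ^ d ≤ p * (t * (p * (t * p) ^ d)) := by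
    calc t * (t * p) ^ d = 1 * (t * (1 * (t * p) ^ d)) := by ring
      _ ≤ p * (t * (p * (t * p) ^ d)) :=
        Nat.mul_le_mul (by omega) (Nat.mul_le_mul_left _ (Nat.mul_le_mul_right _ (by omega)))
  obtain ⟨W, hW0, hWR, hWd⟩ := PAS_pick (s.shift j0) (t := t) (e := (t * p) ^ d) Λ
    (fun k l h => deg_fl (s.shift j0) _ ht (hΛ k l h) k) (by
      show (t + 4) * (p * (t * p) ^ d) ≤ s.L - j0
      omega)
  have hM0 : (s.shift j0).M 0 = s.M j0 := rfl
  rw [hM0] at hW0 hWd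
  have h1 : Module.finrank K W ≤ Module.finrank K ↥((s.shift j0).Rsp t ((t * p) ^ d) Λ ⊓ s.M j0) := by
    refine Submodule.finrank_mono (le_inf ?_ hW0)
    intro f hf
    exact (Rsp_iff _ t _ Λ f).2 (hWR f hf)
  have h2 := PA_codim ((s.shift j0).Rsp t ((t * p) ^ d) Λ) (s.M 0) (s.M j0) (M_le s (Nat.zero_le _) (by omega))
  have h3 : Module.finrank K ((s.shift j0).M (t * (t * p) ^ d)) ≤ Module.finrank K (s.M s.L) := by
    show Module.finrank K (s.M (j0 + t * (t * p) ^ d)) ≤ Module.finrank K (s.M s.L)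
    exact Submodule.finrank_mono (M_le s (by omega) le_rfl)
  have h4 : Λ.length * (2 ^ t * Module.finrank K ((s.shift j0).M (t * (t * p) ^ d))) ≤
      Λ.length * (2 ^ t * Module.finrank K (s.M s.L)) := Nat.mul_le_mul_left _ (Nat.mul_le_mul_left _ h3)
  have h5 := Nat.mul_le_mul_left (3 ^ t) h1
  have h6 := Nat.mul_le_mul_left (3 ^ t) h2
  rw [Nat.mul_add, Nat.mul_add] at h6
  omega

/-- `A` is an instance of the pigeonhole principle whose auxiliary gates are in `Λ`. -/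
def PAQ (P : ℕ) (Λ : List (Fm p)) (A : Fm p) : Prop :=
  ∃ (m r : ℕ) (ψ : Fin m → Fin r → Fm p), 1 ≤ m ∧ (P + 1) * r ≤ P * m ∧
      A = phpFm ψ ∧ ∀ i j, j ≤ r → cnL true ((phRow ψ i).take j) ∈ Λ

/-- The vectors of the bottom level on which all instances in a list hold. -/
theorem PA_php_list [FiniteDimensional K E] [Fact p.Prime] [CharP K p] (s : Slow K E n) {j0 t e d P k : ℕ} (ht : 1 ≤ t)
    {Λ : List (Fm p)} (hΛ : ∀ k l, cnL k l ∈ Λ → ∀ A ∈ l, A.dep 0 ≤ d)
    (hL : j0 + 8 * (t * (p * (t * p) ^ d)) ≤ s.L) (hl : (2 * k + 3) * (t * (p * (t * p) ^ d)) ≤ j0) (Φ : List (Fm p))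
    (hΦ : ∀ A ∈ Φ, A.dep 0 ≤ d ∧ (∀ B ∈ A.subs, B ∈ Λ) ∧ PAQ P Λ A) :
    ∃ U : Submodule K E, U ≤ (s.shift j0).Rsp t e Λ ⊓ s.M 0 ∧ (∀ f ∈ U, ∀ A ∈ Φ, s.act (1 - (s.shift j0).h t e A) f = 0) ∧
      (P + 1) ^ k * Module.finrank K ↥((s.shift j0).Rsp t e Λ ⊓ s.M 0) ≤
        (P + 1) ^ k * Module.finrank K U + Φ.length * (P ^ k * Module.finrank K (s.M s.L)) := by
  induction Φ with
  | nil =>
    refine ⟨_, le_rfl, ?_, ?_⟩
    · intro f _ B hB
      exact absurd hB List.not_mem_nil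
    · rw [List.length_nil, Nat.zero_mul]
      exact Nat.le_add_right _ _
  | cons A Φ ih =>
    obtain ⟨U, hU0, hUR, hUd⟩ := ih (fun B hB => hΦ B (List.mem_cons_of_mem _ hB))
    obtain ⟨hd, hs, m, r, ψ, hm, hP, hA, hz⟩ := hΦ A List.mem_cons_self
    subst hA
    have h1 := php_rank s (e := e) ht hΛ ψ hd hs hz hm hP hL 0 (k := k) (by omega)
    have h2 := PA_ker ((s.shift j0).Rsp t e Λ ⊓ s.M 0) (s.act (1 - (s.shift j0).h t e (phpFm ψ)))
    have h3 := inter_bound ((s.shift j0).Rsp t e Λ ⊓ s.M 0) U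
      ((s.shift j0).Rsp t e Λ ⊓ s.M 0 ⊓ LinearMap.ker (s.act (1 - (s.shift j0).h t e (phpFm ψ)))) hU0 inf_le_left
    refine ⟨U ⊓ ((s.shift j0).Rsp t e Λ ⊓ s.M 0 ⊓ LinearMap.ker (s.act (1 - (s.shift j0).h t e (phpFm ψ)))),
      le_trans inf_le_left hU0, ?_, ?_⟩
    · intro f hf B hB
      rw [Submodule.mem_inf] at hf
      rcases List.mem_cons.1 hB with rfl | hB
      · have h4 := (Submodule.mem_inf.1 hf.2).2
        rw [LinearMap.mem_ker] at h4
        exact h4
      · exact hUR f hf.1 B hB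
    · have h5 := Nat.mul_le_mul_left ((P + 1) ^ k) h2
      have h6 := Nat.mul_le_mul_left ((P + 1) ^ k) h3
      rw [Nat.mul_add] at h5
      rw [Nat.mul_add, Nat.mul_add] at h6
      rw [List.length_cons, Nat.add_mul, Nat.one_mul]
      omega

/-- All lines have value 1 on a vector which respects all gates and on which all axioms hold. -/
theorem PA_lines [Fact p.Prime] [CharP K p] (s : Slow K E n) {t e d P : ℕ} (ht : 1 ≤ t) {f : E} (hf : f ∈ s.M 0)
    (S : List (Rule p)) (hS : ∀ R ∈ S, R.Sound) (F : CNF) (W : ℕ) (hF : ∀ C ∈ F, C.length ≤ W)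
    (hF' : ∀ C ∈ F, C.foldr s.lit f = 0) (π : List (Fm p)) (hd : ∀ A ∈ π, A.dep 0 ≤ d)
    (Λ : List (Fm p)) (h1 : ∀ A ∈ π, ∀ B ∈ A.subs, B ∈ Λ) (hR : ∀ B ∈ Λ, s.Resp t e f B)
    (h2 : ∀ (i : ℕ) (h : i < π.length), PALine S P F (π.take i) π[i] Λ)
    (h3 : ∀ A ∈ π, PAQ P Λ A → s.Z f (1 - s.h t e A))
    (hL : 4 * TA S t d + W ≤ s.L) : ∀ A ∈ π, s.Z f (1 - s.h t e A) := by
  have hp := (Fact.out : p.Prime).two_le
  have hT1 : p * (t * (p * (t * p) ^ d)) ≤ TA S t d := by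
    unfold TA
    exact Nat.le_mul_of_pos_left _ (PA_sysC_pos S)
  have hT3 : 4 * (t * p) ^ d ≤ p * (t * (p * (t * p) ^ d)) := by
    calc 4 * (t * p) ^ d = 2 * (1 * (2 * (t * p) ^ d)) := by ring
      _ ≤ p * (t * (p * (t * p) ^ d)) :=
        Nat.mul_le_mul hp (Nat.mul_le_mul ht (Nat.mul_le_mul_right _ hp))
  have hT2 : 1 ≤ (t * p) ^ d := one_le_e ht
  have hOk : ∀ A ∈ π, s.Ok t e d f A := fun A hA B hB => ⟨hR B (h1 A hA B hB), (dep_subs hB).trans (hd A hA)⟩
  have key : ∀ (i : ℕ) (h : i < π.length), s.Z f (1 - s.h t e π[i]) := by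
    intro i
    induction i using Nat.strong_induction_on with
    | _ i ih =>
      intro h
      have hi : π[i] ∈ π := List.getElem_mem h
      rcases h2 i h with ⟨C, hC, hCi⟩ | ⟨R, hRS, u, G, h3', h4, h5⟩ | hQ
      · rw [hCi]
        rw [hCi] at hi
        refine clause_ok (T := (t * p) ^ d) s hf C (hF' C hC) (hR _ (h1 _ hi _ (subs_self _))) (deg_h s e ht (hd _ hi)) ?_
        have := hF C hC
        omega
      · have hc : ∀ A ∈ R.concl.inst u G, s.Ok t e d f A := by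
          intro A hA
          rw [h3', List.mem_singleton] at hA
          rw [hA]
          exact hOk _ hi
        have hsc : R.mvs.length + 3 * R.sqs.length ≤ sysC S := by
          unfold sysC
          have h1 : R.mvs.length + 3 * R.sqs.length ∈ S.map fun R : Rule p => R.mvs.length + 3 * R.sqs.length :=
            List.mem_map.2 ⟨R, hRS, rfl⟩
          have h2 := List.single_le_sum (l := S.map fun R : Rule p => R.mvs.length + 3 * R.sqs.length)
            (fun x _ => Nat.zero_le x) _ h1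
          omega
        refine rule_ok (T := TA S t d) s ht hf R (hS R hRS) u G
          (fun P hP A hA => hOk _ (List.mem_of_mem_take (h4 P hP A hA))) hc (fun j hj k => hR _ (h5 j hj k)) ?_ ?_ (by omega) ?_ _ ?_
        · unfold TA
          exact Nat.mul_le_mul_right _ hsc
        · have h6 : t * (p * (t * p) ^ d) ≤ p * (t * (p * (t * p) ^ d)) :=
            Nat.le_mul_of_pos_left _ (Fact.out : p.Prime).pos
          omega
        · intro P hP A hA
          have h6 := h4 P hP A hA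
          rw [List.mem_take_iff_getElem] at h6
          obtain ⟨j, hj, rfl⟩ := h6
          exact ih j (by omega) (by omega)
        · rw [h3']
          exact List.mem_singleton.2 rfl
      · exact h3 _ hi hQ
  intro A hA
  obtain ⟨i, hi, rfl⟩ := List.mem_iff_getElem.1 hA
  exact key i hi

theorem main_P (p : ℕ) [Fact p.Prime] (S : List (Rule p)) (hS : ∀ R ∈ S, R.Sound) (d n L A t k P W : ℕ) (ht : 1 ≤ t) (F : CNF)
    (hF : ∀ C ∈ F, C.length ≤ W) (hs : HasSlow p n F L A)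
    (hL : (2 * k + 3) * (t * (p * (t * p) ^ d)) + (8 * TA S t d + W) ≤ L) (π : List (Fm p)) (hπ : RefutesP S d P F π) :
    3 ^ t * (P + 1) ^ k ≤ psize π * A * (4 * sysC S * 2 ^ t * (P + 1) ^ k + 3 ^ t * P ^ k) := by
  classical
  obtain ⟨K, _, _, E, _, _, _, s, hsL, h0, hM, hcl⟩ := hs
  subst hsL
  have hp := (Fact.out : p.Prime).two_le
  have hT1 : p * (t * (p * (t * p) ^ d)) ≤ TA S t d := by
    unfold TA
    exact Nat.le_mul_of_pos_left _ (PA_sysC_pos S)
  have hT2 : t * (p * (t * p) ^ d) ≤ p * (t * (p * (t * p) ^ d)) := Nat.le_mul_of_pos_left _ (Fact.out : p.Prime).pos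
  obtain ⟨j0, hj0⟩ : ∃ j0, j0 = (2 * k + 3) * (t * (p * (t * p) ^ d)) := ⟨_, rfl⟩
  rw [← hj0] at hL
  obtain ⟨Λ, hlen, hsub, hdep, hdata⟩ := PA_gates S d P F π hπ
  have hc1 := PA_codimR s (j0 := j0) ht hdep (by omega)
  have hΦ0 : ∀ A ∈ π.filter fun A => PAQ P Λ A, A.dep 0 ≤ d ∧ (∀ B ∈ A.subs, B ∈ Λ) ∧ PAQ P Λ A := by
    intro A hA
    rw [List.mem_filter] at hA
    exact ⟨hπ.1 A hA.1, hsub A hA.1, by simpa using hA.2⟩
  obtain ⟨U, hU0, hUR, hUd⟩ := PA_php_list s (j0 := j0) (e := (t * p) ^ d) (k := k) ht hdep (by omega) (by rw [hj0]) _ hΦ0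
  have hU : Module.finrank K U = 0 := by
    by_contra hne
    have hne' : U ≠ ⊥ := by
      intro hbot
      rw [hbot, finrank_bot] at hne
      exact hne rfl
    obtain ⟨f, hf, hf0⟩ := Submodule.exists_mem_ne_zero_of_ne_bot hne'
    have hfU := hU0 hf
    rw [Submodule.mem_inf] at hfU
    have hfs : f ∈ (s.shift j0).M 0 := M_le s (Nat.zero_le _) (by omega) hfU.2
    have hlines := PA_lines (s.shift j0) (e := (t * p) ^ d) ht hfs S hS F W hF
      (fun C hC => hcl C hC 0 (by have := hF C hC; omega) f hfU.2) π hπ.1 Λ hsub ((Rsp_iff _ t _ Λ f).1 hfU.1) hdata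
      (fun A hA hQ => hUR f hf A (by
        rw [List.mem_filter]
        exact ⟨hA, by simpa using hQ⟩)) (by
        show 4 * TA S t d + W ≤ s.L - j0
        omega)
    have h11 := hlines _ hπ.2.2
    rw [bot_val, sub_zero] at h11
    exact hf0 (Z_one (s.shift j0) h11)
  rw [hU, Nat.mul_zero, Nat.zero_add] at hUd
  obtain ⟨D, hD⟩ : ∃ D, D = Module.finrank K (s.M 0) := ⟨_, rfl⟩
  obtain ⟨V, hV⟩ : ∃ V, V = Module.finrank K ↥((s.shift j0).Rsp t ((t * p) ^ d) Λ ⊓ s.M 0) := ⟨_, rfl⟩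
  obtain ⟨X, hX⟩ : ∃ X, X = Module.finrank K (s.M s.L) := ⟨_, rfl⟩
  rw [← hD] at h0 hM hc1
  rw [← hV] at hc1 hUd
  rw [← hX] at hM hc1 hUd
  have hsz : π.length ≤ psize π := by
    unfold psize
    have h1 := List.length_le_sum_of_one_le (π.map Fm.size) (by
      intro i hi
      rw [List.mem_map] at hi
      obtain ⟨A, _, rfl⟩ := hi
      exact PA_size_pos A)
    rw [List.length_map] at h1
    exact h1
  have hΦlen : (π.filter fun A => PAQ P Λ A).length ≤ psize π := (List.length_filter_le _ _).trans hsz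
  have h3 : 3 ^ t * (P + 1) ^ k * D ≤ psize π * A * (4 * sysC S * 2 ^ t * (P + 1) ^ k + 3 ^ t * P ^ k) * D := by
    calc 3 ^ t * (P + 1) ^ k * D = (P + 1) ^ k * (3 ^ t * D) := by ring
      _ ≤ (P + 1) ^ k * (3 ^ t * V + Λ.length * (2 ^ t * X)) := Nat.mul_le_mul_left _ hc1
      _ = 3 ^ t * ((P + 1) ^ k * V) + (P + 1) ^ k * (Λ.length * (2 ^ t * X)) := by ring
      _ ≤ 3 ^ t * (psize π * (P ^ k * (A * D))) + (P + 1) ^ k * ((4 * sysC S * psize π) * (2 ^ t * (A * D))) := by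
          refine Nat.add_le_add ?_ ?_
          · refine Nat.mul_le_mul_left _ (hUd.trans ?_)
            exact Nat.mul_le_mul hΦlen (Nat.mul_le_mul_left _ hM)
          · refine Nat.mul_le_mul_left _ ?_
            exact Nat.mul_le_mul hlen (Nat.mul_le_mul_left _ hM)
      _ = psize π * A * (4 * sysC S * 2 ^ t * (P + 1) ^ k + 3 ^ t * P ^ k) * D := by ring
  exact Nat.le_of_mul_le_mul_right h3 h0

end ACpFrege
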