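import Pool.Agent.H98.AF.ASound
import Pool.Agent.H75.PA.Defs

/-!
helper75 (pigeonhole axioms): what a vector sees on which an instance of the pigeonhole principle fails.
For a row `l` of formulas put `PA_y l j = (1 - value of OR(l_0, .., l_(j-1))) * value of l_j`. If `f` respects all gates, then the sum
over `j` of the `PA_y l j` is the value of `OR(l)` on `f`; if the instance fails on `f` this is 1 for every row, and
`PA_y (row i) j * PA_y (row i') j` vanishes on `f` for `i ≠ i'`.
-/

set_option autoImplicit false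
open Finset

namespace ACpFrege

variable {K : Type} [Field K] {E : Type} [AddCommGroup E] [Module K E] {n : ℕ} {p : ℕ}

/-- The first true member of the list `l` is the one with index `j`. -/
noncomputable def Slow.py (s : Slow K E n) (t e : ℕ) (l : List (Fm p)) (j : ℕ) (A : Fm p) : Pt n → K :=
  (1 - s.h t e (cnL true (l.take j))) * s.h t e A

private theorem PAVec_pl (g : Pt n → K) : pl true g = g := by
  unfold pl
  rw [if_pos rfl]

private theorem PAVec_plf (g : Pt n → K) : pl false g = 1 - g := by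
  unfold pl
  rw [if_neg Bool.false_ne_true]

private theorem PAVec_idem {g : Pt n → K} (h : Bv g) : g * g = g := by
  funext x
  show g x * g x = g x
  rcases h x with h | h
  · rw [h, mul_zero]
  · rw [h, mul_one]

theorem py_bv [Fact p.Prime] [CharP K p] (s : Slow K E n) (t e : ℕ) (l : List (Fm p)) (j : ℕ) (A : Fm p) :
    s.py t e l j A * s.py t e l j A = s.py t e l j A := by
  funext x
  show (1 - s.h t e (cnL true (l.take j)) x) * s.h t e A x * ((1 - s.h t e (cnL true (l.take j)) x) * s.h t e A x) =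
    (1 - s.h t e (cnL true (l.take j)) x) * s.h t e A x
  rcases h_bv s t e (cnL true (l.take j)) x with h | h
  · rcases h_bv s t e A x with h' | h'
    · rw [h']
      ring
    · rw [h, h']
      ring
  · rw [h]
    ring

theorem py_dg [Fact p.Prime] (s : Slow K E n) {t e d : ℕ} (ht : 1 ≤ t) {l : List (Fm p)} (hl : ∀ A ∈ l, A.dep 0 ≤ d) (j : ℕ)
    {A : Fm p} (hA : A ∈ l) : s.py t e l j A ∈ Dg K n (2 * (t * (p * (t * p) ^ d))) := by
  have h1 : s.h t e (cnL true (l.take j)) ∈ Dg K n (t * (p * (t * p) ^ d)) := by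
    have := deg_cnL s e ht (l := l.take j) (fun A hA => hl A (List.mem_of_mem_take hA)) true
    exact this
  have h2 : s.h t e A ∈ Dg K n (t * (p * (t * p) ^ d)) := by
    refine Dg_mono ?_ (deg_h s e ht (hl A hA))
    have hp : 1 ≤ p := (Fact.out : p.Prime).one_lt.le
    calc (t * p) ^ d = 1 * (1 * (t * p) ^ d) := by ring
      _ ≤ t * (p * (t * p) ^ d) := Nat.mul_le_mul ht (Nat.mul_le_mul_right _ hp)
  have h3 := Dg_mul (Submodule.sub_mem _ (Dg_one (t * (p * (t * p) ^ d))) h1) h2
  have h4 : 2 * (t * (p * (t * p) ^ d)) = t * (p * (t * p) ^ d) + t * (p * (t * p) ^ d) := by ring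
  rw [h4]
  exact h3

/-- One step of the telescoping sum. -/
theorem py_step [Fact p.Prime] [CharP K p] (s : Slow K E n) {t e d : ℕ} (ht : 1 ≤ t) {f : E} (hf : f ∈ s.M 0)
    {l : List (Fm p)} (hl : ∀ A ∈ l, A.dep 0 ≤ d) (hR : ∀ A ∈ l, s.Resp t e f A)
    (hR' : ∀ j, j ≤ l.length → s.Resp t e f (cnL true (l.take j))) (hL : 8 * (t * (p * (t * p) ^ d)) ≤ s.L) {j : ℕ}
    (hj : j < l.length) : s.Z f (s.h t e (cnL true (l.take (j + 1))) - s.h t e (cnL true (l.take j)) -
      s.py t e l j l[j]) := by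
  obtain ⟨T, hT⟩ : ∃ T, T = t * (p * (t * p) ^ d) := ⟨_, rfl⟩
  have hle : (t * p) ^ d ≤ T := by
    have hp : 1 ≤ p := (Fact.out : p.Prime).one_lt.le
    rw [hT]
    calc (t * p) ^ d = 1 * (1 * (t * p) ^ d) := by ring
      _ ≤ t * (p * (t * p) ^ d) := Nat.mul_le_mul ht (Nat.mul_le_mul_right _ hp)
  obtain ⟨a, ha⟩ : ∃ a, a = s.h t e (cnL true (l.take (j + 1))) := ⟨_, rfl⟩
  obtain ⟨b, hb⟩ : ∃ b, b = s.h t e (cnL true (l.take j)) := ⟨_, rfl⟩
  obtain ⟨c, hc⟩ : ∃ c, c = s.h t e l[j] := ⟨_, rfl⟩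
  have hlj : ∀ j, ∀ A ∈ l.take j, A.dep 0 ≤ d := fun j A hA => hl A (List.mem_of_mem_take hA)
  have hRj : ∀ j, ∀ A ∈ l.take j, s.Resp t e f A := fun j A hA => hR A (List.mem_of_mem_take hA)
  have hda : a ∈ Dg K n T := by
    rw [ha, hT]
    exact deg_cnL s e ht (hlj (j + 1)) true
  have hdb : b ∈ Dg K n T := by
    rw [hb, hT]
    exact deg_cnL s e ht (hlj j) true
  have hdc : c ∈ Dg K n T := by
    rw [hc]
    exact Dg_mono hle (deg_h s e ht (hl _ (List.getElem_mem hj)))
  have hmem : l[j] ∈ l.take (j + 1) := by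
    rw [List.mem_take_iff_getElem]
    exact ⟨j, by omega, rfl⟩
  have hsub : ∀ A ∈ l.take j, A ∈ l.take (j + 1) := by
    intro A hA
    rw [List.mem_take_iff_getElem] at hA ⊢
    obtain ⟨i, hi, rfl⟩ := hA
    exact ⟨i, by omega, rfl⟩
  have hg1 : ∀ A ∈ l.take (j + 1), s.Z f ((1 - a) * s.h t e A) := by
    intro A hA
    have := gate_mem s (e := e) ht hf (hlj (j + 1)) (hR' (j + 1) (by omega)) hA (by omega)
    rw [PAVec_pl, PAVec_pl, ← ha] at this
    exact this
  have hg0 : ∀ A ∈ l.take j, s.Z f ((1 - b) * s.h t e A) := by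
    intro A hA
    have := gate_mem s (e := e) ht hf (hlj j) (hR' j (by omega)) hA (by omega)
    rw [PAVec_pl, PAVec_pl, ← hb] at this
    exact this
  have hA1 : s.Z f ((1 - a) * b) := by
    have := gate_of_mem s (e := e) (T := T) ht hf (hlj j) (hRj j) (P := 1 - a) (Submodule.sub_mem _ (Dg_one _) hda) (by rw [hT])
      (by omega) (k := true) (fun A hA => by rw [PAVec_pl]; exact hg1 A (hsub A hA))
    rw [PAVec_pl, ← hb] at this
    exact this
  have hA2 : s.Z f ((1 - a) * c) := by
    rw [hc]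
    exact hg1 _ hmem
  have hA3 : s.Z f ((1 - b) * (1 - c) * a) := by
    have := gate_of_mem s (e := e) (T := 2 * T) ht hf (hlj (j + 1)) (hRj (j + 1)) (P := (1 - b) * (1 - c))
      (by
        rw [two_mul]
        exact Dg_mul (Submodule.sub_mem _ (Dg_one _) hdb) (Submodule.sub_mem _ (Dg_one _) hdc)) (by omega)
      (by omega) (k := true) (fun A hA => by
        rw [PAVec_pl]
        rw [List.mem_take_iff_getElem] at hA
        obtain ⟨i, hi, rfl⟩ := hA
        rcases Nat.lt_or_ge i j with hij | hij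
        · have h1 := hg0 l[i] (by rw [List.mem_take_iff_getElem]; exact ⟨i, by omega, rfl⟩)
          have h2 := Z_mul s hf (Submodule.sub_mem _ (Dg_one _) hdc : 1 - c ∈ Dg K n T)
            (Dg_mul (Submodule.sub_mem _ (Dg_one _) hdb)
              (Dg_mono hle (deg_h s e ht (hl l[i] (List.getElem_mem (by omega)))))) h1 (by omega)
          have h3 : (1 - b) * (1 - c) * s.h t e l[i] = (1 - c) * ((1 - b) * s.h t e l[i]) := by ring
          rw [h3]
          exact h2
        · have hij' : i = j := by omega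
          subst hij'
          have h3 : (1 - b) * (1 - c) * s.h t e l[i] = 0 := by
            rw [← hc]
            have h4 : (1 - c) * c = 0 := by
              have := PAVec_idem (h_bv s t e l[i])
              rw [← hc] at this
              rw [sub_mul, one_mul, this, sub_self]
            rw [mul_assoc, h4, mul_zero]
          rw [h3]
          exact Z_zero s f)
    rw [PAVec_pl, ← ha] at this
    exact this
  have hid : a - b - s.py t e l j l[j] = (1 - b) * (1 - c) * a - (1 - a) * b - (1 - a) * c + c * ((1 - a) * b) := by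
    unfold Slow.py
    rw [← hb, ← hc]
    ring
  rw [← ha, ← hb, hid]
  refine Z_add s (Z_sub s (Z_sub s hA3 hA1) hA2) ?_
  exact Z_mul s hf hdc (Dg_mul (Submodule.sub_mem _ (Dg_one _) hda) hdb) hA1 (by omega)

/-- The telescoping sum. -/
theorem py_sum [Fact p.Prime] [CharP K p] (s : Slow K E n) {t e d : ℕ} (ht : 1 ≤ t) {f : E} (hf : f ∈ s.M 0)
    {l : List (Fm p)} (hl : ∀ A ∈ l, A.dep 0 ≤ d) (hR : ∀ A ∈ l, s.Resp t e f A)
    (hR' : ∀ j, j ≤ l.length → s.Resp t e f (cnL true (l.take j))) (hL : 8 * (t * (p * (t * p) ^ d)) ≤ s.L) (k : ℕ)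
    (hk : k ≤ l.length) : s.Z f (s.h t e (cnL true (l.take k)) -
      ∑ j : Fin k, s.py t e l j (l[(j : ℕ)]'(lt_of_lt_of_le j.2 hk))) := by
  induction k with
  | zero =>
    rw [List.take_zero, bot_val, Finset.univ_eq_empty, Finset.sum_empty, sub_zero]
    exact Z_zero s f
  | succ k ih =>
    have h1 := ih (by omega)
    have h2 := py_step s ht hf hl hR hR' hL (show k < l.length by omega)
    rw [Fin.sum_univ_castSucc]
    have h3 := Z_add s h1 h2
    have h4 : s.h t e (cnL true (l.take k)) - ∑ j : Fin k, s.py t e l j (l[(j : ℕ)]'(lt_of_lt_of_le j.2 (by omega))) +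
        (s.h t e (cnL true (l.take (k + 1))) - s.h t e (cnL true (l.take k)) - s.py t e l k (l[k]'(by omega))) =
        s.h t e (cnL true (l.take (k + 1))) -
        (∑ j : Fin k, s.py t e l j (l[(j : ℕ)]'(lt_of_lt_of_le j.2 (by omega))) + s.py t e l k (l[k]'(by omega))) := by ring
    rw [h4] at h3
    exact h3

end ACpFrege
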